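import Pool.Agent.Lib.Baker.Primes

/-! Arithmetic structure of the numbers that look like `x ^ 2`. -/

set_option autoImplicit false

namespace Pool.Agent.P.MP_ed9a6e_lc

open Finset Real Pool.Agent.Lib.Baker

/-- `y` looks like the square of `x`. -/
def Psi (x y : ℕ) : Prop :=
  ∃ u w, x = u + 1 ∧ y = w + 1 ∧ ¬ y = x ∧ (∀ z, Nat.Coprime z x → Nat.Coprime z y) ∧
    ∀ z, Nat.Coprime z w ↔ Nat.Coprime z u ∧ Nat.Coprime z (x + 1)

theorem exists_new_prime {z l : ℕ} (hz : 2 ≤ z) (hl : l.Prime) (h4 : l = 2 → ¬ 4 ∣ z + 1) :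
    ∃ r : ℕ, r.Prime ∧ (r : ℤ) ∣ (z : ℤ) ^ l - 1 ∧ ¬ (r : ℤ) ∣ (z : ℤ) - 1 := by
  by_contra hcon
  push Not at hcon
  set Q := ∑ i ∈ range l, z ^ i with hQ
  have hQz : (Q : ℤ) * (z - 1) = (z : ℤ) ^ l - 1 := by
    rw [hQ]; push_cast; exact geom_sum_mul _ _
  have hlQ : l < Q := by
    have h1 : ∑ _i ∈ range l, 1 < Q := by
      refine sum_lt_sum (fun i _ => Nat.one_le_pow _ _ (by omega)) ⟨1, mem_range.2 hl.one_lt, ?_⟩
      rw [pow_one]; omega
    simpa using h1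
  have hr : ∀ {r : ℕ}, r.Prime → r ∣ Q → r = l ∧ (r : ℤ) ∣ (z : ℤ) - 1 := by
    intro r hr hd
    have h1 : (r : ℤ) ∣ Q := Int.natCast_dvd_natCast.2 hd
    have h2 := hcon r hr (hQz ▸ h1.mul_right _)
    have h3 : (r : ℤ) ∣ ∑ i ∈ range l, ((z : ℤ) ^ i - 1) :=
      dvd_sum fun i _ => h2.trans (by simpa using sub_dvd_pow_sub_pow (z : ℤ) 1 i)
    have h4 : ∑ i ∈ range l, ((z : ℤ) ^ i - 1) = Q - l := by
      rw [sum_sub_distrib, hQ]; simp
    rw [h4] at h3
    have h5 : (r : ℤ) ∣ l := by simpa using h1.sub h3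
    exact ⟨(Nat.prime_dvd_prime_iff_eq hr hl).1 (Int.natCast_dvd_natCast.1 h5), h2⟩
  have hpow := Nat.eq_prime_pow_of_unique_prime_dvd (n := Q) (p := l) (by omega)
    fun hd h => (hr hd h).1
  generalize Q.primeFactorsList.length = k at hpow
  have hk : 2 ≤ k := by
    by_contra hk
    have : l ^ k ≤ l ^ 1 := Nat.pow_le_pow_right hl.pos (by omega)
    rw [pow_one] at this
    omega
  have hsq : l ^ 2 ∣ Q := hpow ▸ pow_dvd_pow l hk
  have hz1 := (hr hl ((dvd_pow_self l two_ne_zero).trans hsq)).2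
  rcases hl.eq_two_or_odd' with h2 | hodd
  · refine h4 h2 ?_
    rw [hQ, h2] at hsq
    simpa [sum_range_succ, add_comm] using hsq
  · have hp : Prime (l : ℤ) := Nat.prime_iff_prime_int.1 hl
    have key := emultiplicity_geom_sum₂_eq_one (x := (z : ℤ)) (y := 1) hp hodd hz1 fun h =>
      hp.not_dvd_one (by simpa using h.sub hz1)
    have h1 := (emultiplicity_eq_coe.1 (key.trans Nat.cast_one.symm)).2
    refine h1 ?_
    have h2 : ((l ^ 2 : ℕ) : ℤ) ∣ Q := Int.natCast_dvd_natCast.2 hsq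
    simpa [hQ] using h2

theorem exp_eq_of_supp {x b : ℕ} (hx : 2 ≤ x) (hb : b ≠ 0)
    (h : ∀ r : ℕ, r.Prime → (r : ℤ) ∣ (x : ℤ) ^ b - 1 → (r : ℤ) ∣ (x : ℤ) ^ 2 - 1) :
    b = 1 ∨ b = 2 := by
  by_contra hcon
  push Not at hcon
  rcases Nat.even_or_odd' b with ⟨c, rfl | rfl⟩
  · obtain ⟨l, hl, k, rfl⟩ := Nat.exists_prime_and_dvd (show c ≠ 1 by omega)
    obtain ⟨r, hr, h1, h2⟩ := exists_new_prime (z := x ^ 2) (by nlinarith) hl fun _ h4 => by
      have : x % 4 = 0 ∨ x % 4 = 1 ∨ x % 4 = 2 ∨ x % 4 = 3 := by omega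
      have h5 : x ^ 2 % 4 = (x % 4) ^ 2 % 4 := Nat.pow_mod _ _ _
      rcases this with h | h | h | h <;> rw [h] at h5 <;> omega
    push_cast at h1 h2
    refine h2 (h r hr (h1.trans ?_))
    have := sub_dvd_pow_sub_pow (((x : ℤ) ^ 2) ^ l) 1 k
    rw [one_pow] at this
    rw [pow_mul, pow_mul]
    exact this
  · obtain ⟨l, hl, k, hk⟩ := Nat.exists_prime_and_dvd (show 2 * c + 1 ≠ 1 by omega)
    have hl2 : l ≠ 2 := by rintro rfl; omega
    obtain ⟨r, hr, h1, h2⟩ := exists_new_prime hx hl fun h => absurd h hl2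
    have h3 : (r : ℤ) ∣ (x : ℤ) ^ (2 * c + 1) - 1 := by
      refine h1.trans ?_
      have := sub_dvd_pow_sub_pow ((x : ℤ) ^ l) 1 k
      rwa [one_pow, ← pow_mul, ← hk] at this
    have h4 := h r hr h3
    have h5 : (r : ℤ) ∣ ((x : ℤ) ^ 2) ^ c - 1 :=
      h4.trans (by simpa using sub_dvd_pow_sub_pow ((x : ℤ) ^ 2) 1 c)
    refine h2 ?_
    have e : (x : ℤ) - 1 = ((x : ℤ) ^ (2 * c + 1) - 1) - x * (((x : ℤ) ^ 2) ^ c - 1) := by ring
    rw [e]
    exact h3.sub (h5.mul_left _)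

theorem psi_sq {x : ℕ} (hx : 2 ≤ x) : Psi x (x ^ 2) := by
  obtain ⟨u, rfl⟩ : ∃ u, x = u + 1 := ⟨x - 1, by omega⟩
  refine ⟨u, u * (u + 1 + 1), rfl, by ring, by nlinarith, fun z hz => hz.pow_right _, fun z => ?_⟩
  exact Nat.coprime_mul_iff_right

theorem two_le_of_psi {x y : ℕ} (h : Psi x y) : 2 ≤ x := by
  obtain ⟨u, w, rfl, rfl, hne, -, h2⟩ := h
  by_contra hu
  obtain rfl : u = 0 := by omega
  have h3 := ((h2 (w + 1)).1 (by simp)).1
  rw [Nat.coprime_zero_right] at h3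
  omega

theorem bad_structure {u y p q s x0 : ℕ} (h : Psi (u + 1) y) (hy : y ≠ (u + 1) ^ 2)
    (hp : p.Prime) (hpx : p ∣ u + 1) (hq : q.Prime) (hqu : q ∣ u)
    (h1 : u.primeFactors.card ≤ s) (h2 : (u + 1).primeFactors.card ≤ s)
    (h3 : (u + 2).primeFactors.card ≤ s) (hl : log (u + 2 : ℕ) ≤ x0)
    (hx0 : 1296 * (3 * s + 1) ^ 4 ≤ x0) {B : ℕ}
    (hB : 2 * x0 ^ (5 * (3 * s) ^ 2 + 5 * (3 * s) + 9) ≤ B) :
    ∃ b ≤ B, ∃ m' ∈ (((u + 1) / p) ^ B).divisors,
      q ∈ ((m' : ℤ) - (((u + 1) / p : ℕ) : ℤ) ^ b).natAbs.primeFactors := by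
  have hu := two_le_of_psi h
  obtain ⟨u', w, e1, rfl, hne, hc1, hc2⟩ := h
  obtain rfl : u = u' := by omega
  have hy1 : ∀ r : ℕ, r.Prime → r ∣ w + 1 → r ∣ u + 1 := fun r hr hd => by
    by_contra hn
    exact (hr.coprime_iff_not_dvd.1 (hc1 r (hr.coprime_iff_not_dvd.2 hn))) hd
  have hw1 : ∀ r : ℕ, r.Prime → (r ∣ w ↔ r ∣ u ∨ r ∣ u + 2) := fun r hr => by
    have := hc2 r
    simp only [hr.coprime_iff_not_dvd] at this
    tauto
  have hw0 : w ≠ 0 := by
    rintro rfl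
    obtain ⟨r, hr1, hr⟩ := Nat.exists_infinite_primes (u + 3)
    rcases (hw1 r hr).1 (dvd_zero r) with h | h
    · have := Nat.le_of_dvd (by omega) h; omega
    · have := Nat.le_of_dvd (by omega) h; omega
  have hsub : (w * (w + 1)).primeFactors ⊆
      u.primeFactors ∪ (u + 1).primeFactors ∪ (u + 2).primeFactors := by
    intro r hr
    obtain ⟨hr1, hr2, -⟩ := Nat.mem_primeFactors.1 hr
    simp only [mem_union, Nat.mem_primeFactors]
    rcases (Nat.Prime.dvd_mul hr1).1 hr2 with h | h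
    · rcases (hw1 r hr1).1 h with h | h
      · exact Or.inl (Or.inl ⟨hr1, h, by omega⟩)
      · exact Or.inr ⟨hr1, h, by omega⟩
    · exact Or.inl (Or.inr ⟨hr1, hy1 r hr1 h, by omega⟩)
  have hlog := (log_succ_le (z := w) (s := 3 * s) (x := x0) (by omega)
    ((card_le_card hsub).trans (by
      have := card_union_le (u.primeFactors ∪ (u + 1).primeFactors) (u + 2).primeFactors
      have := card_union_le u.primeFactors (u + 1).primeFactors
      omega))
    (fun r hr => by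
      have hr0 := (Nat.prime_of_mem_primeFactors hr).pos
      have : r ≤ u + 2 := by
        have := hsub hr
        simp only [mem_union] at this
        rcases this with (h | h) | h <;> have := Nat.le_of_mem_primeFactors h <;> omega
      exact (log_le_log (by exact_mod_cast hr0) (by exact_mod_cast this)).trans hl) hx0).trans hB
  have hfac : ∀ r : ℕ, r.Prime → (w + 1).factorization r ≤ B := fun r hr => by
    refine le_trans (Nat.le_log_of_pow_le (by norm_num) ?_) hlog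
    exact (Nat.pow_le_pow_left hr.two_le _).trans (Nat.ordProj_le r (by omega))
  obtain ⟨m, hm⟩ := hpx
  have hm0 : m ≠ 0 := by rintro rfl; omega
  have hdiv : (u + 1) / p = m := by rw [hm, Nat.mul_div_cancel_left _ hp.pos]
  rw [hdiv]
  set b := (w + 1).factorization p with hb
  set m' := (w + 1) / p ^ b with hm'
  have hym : p ^ b * m' = w + 1 := Nat.ordProj_mul_ordCompl_eq_self (w + 1) p
  have hm'0 : m' ≠ 0 := by intro h; rw [h] at hym; omega
  have hpm' : ¬ p ∣ m' := Nat.not_dvd_ordCompl hp (by omega)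
  refine ⟨b, hfac p hp, m', Nat.mem_divisors.2 ⟨?_, pow_ne_zero _ hm0⟩,
    Nat.mem_primeFactors.2 ⟨hq, ?_, ?_⟩⟩
  · refine (Nat.factorization_prime_le_iff_dvd hm'0 (pow_ne_zero _ hm0)).1 fun r hr => ?_
    by_cases hd : r ∣ m'
    · have h4 : m' ∣ w + 1 := Dvd.intro_left _ hym
      have h5 := hy1 r hr (hd.trans h4)
      rw [hm] at h5
      have h6 : r ∣ m := by
        rcases (Nat.Prime.dvd_mul hr).1 h5 with h | h
        · exact absurd ((Nat.prime_dvd_prime_iff_eq hr hp).1 h ▸ hd) hpm'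
        · exact h
      have h7 := hr.factorization_pos_of_dvd hm0 h6
      have h8 : m'.factorization r ≤ (w + 1).factorization r :=
        (Nat.factorization_le_iff_dvd hm'0 (by omega)).2 h4 r
      have h9 := hfac r hr
      rw [Nat.factorization_pow]
      simp only [Finsupp.smul_apply, smul_eq_mul]
      nlinarith
    · rw [Nat.factorization_eq_zero_of_not_dvd hd]; exact Nat.zero_le _
  · rw [← Int.natCast_dvd]
    have h4 : (q : ℤ) ∣ u := Int.natCast_dvd_natCast.2 hqu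
    have h5 : (q : ℤ) ∣ w := Int.natCast_dvd_natCast.2 ((hw1 q hq).2 (Or.inl hqu))
    have h6 : (q : ℤ) ∣ ((u : ℤ) + 1) ^ b - 1 :=
      h4.trans (by simpa using sub_dvd_pow_sub_pow ((u : ℤ) + 1) 1 b)
    have e1 : (u : ℤ) + 1 = p * m := by exact_mod_cast hm
    have e2 : (p : ℤ) ^ b * m' = w + 1 := by exact_mod_cast hym
    have e : (m' : ℤ) - (m : ℤ) ^ b = (m : ℤ) ^ b * w - m' * (((u : ℤ) + 1) ^ b - 1) := by
      rw [e1, mul_pow]; linear_combination (m : ℤ) ^ b * e2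
    rw [e]
    exact (h5.mul_left _).sub (h6.mul_left _)
  · rw [Int.natAbs_ne_zero, sub_ne_zero]
    intro h4
    have h5 : m' = m ^ b := by exact_mod_cast h4
    have h6 : w + 1 = (u + 1) ^ b := by rw [← hym, h5, hm, mul_pow]
    have h7 : (w : ℤ) = ((u + 1 : ℕ) : ℤ) ^ b - 1 := by
      have : ((w + 1 : ℕ) : ℤ) = ((u + 1 : ℕ) : ℤ) ^ b := by exact_mod_cast h6
      push_cast at this ⊢; linarith
    rcases exp_eq_of_supp (x := u + 1) (b := b) hu (by
      intro h; rw [h, pow_zero] at h6; omega) (fun r hr hd => by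
      rw [← h7, Int.natCast_dvd_natCast] at hd
      have e : ((u + 1 : ℕ) : ℤ) ^ 2 - 1 = (u * (u + 2) : ℕ) := by push_cast; ring
      rw [e, Int.natCast_dvd_natCast]
      rcases (hw1 r hr).1 hd with h | h
      · exact h.mul_right _
      · exact h.mul_left _) with h | h
    · rw [h, pow_one] at h6; exact hne h6
    · rw [h] at h6; exact hy h6

end Pool.Agent.P.MP_ed9a6e_lc
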