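import Pool.Agent.P.MP_ed9a6e_lc.Arith
import Pool.Agent.Lib.Sieve.Mertens

/-! Counting the exceptional `x`. -/

set_option autoImplicit false

namespace Pool.Agent.P.MP_ed9a6e_lc

open Finset Real Pool.Agent.Lib.Sieve

theorem sum_inv_le {M t : ℕ} (h : M < 2 ^ t) : ∑ m ∈ Ioc 0 M, (1 : ℝ) / m ≤ t + 1 := by
  have h1 := harmonic_le_one_add_log M
  rw [harmonic_eq_sum_Icc] at h1
  push_cast at h1
  have h2 : log M ≤ t := by
    rcases Nat.eq_zero_or_pos M with rfl | h0
    · simp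
    · have h3 : (M : ℝ) ≤ 2 ^ t := by exact_mod_cast h.le
      have h4 := log_le_log (by exact_mod_cast h0) h3
      rw [log_pow] at h4
      have := log_two_lt_d9
      have : (0 : ℝ) ≤ t := Nat.cast_nonneg _
      nlinarith
  simp only [one_div]
  have e : Ioc 0 M = Icc 1 M := by ext n; simp; omega
  rw [e]; linarith

theorem card_primeFactors_le {n : ℕ} {k : ℕ} (h : n ≤ 2 ^ k) : n.primeFactors.card ≤ k := by
  rcases Nat.eq_zero_or_pos n with rfl | h0
  · simp
  have h1 : 2 ^ n.primeFactors.card ≤ ∏ p ∈ n.primeFactors, p :=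
    pow_card_le_prod _ _ _ fun p hp => (Nat.prime_of_mem_primeFactors hp).two_le
  have h2 := Nat.le_of_dvd h0 (Nat.prod_primeFactors_dvd n)
  exact (Nat.pow_le_pow_iff_right (by norm_num)).1 (h1.trans (h2.trans h))

theorem card_omega_le {M t : ℕ} (s : ℕ) (h : M < 2 ^ t) :
    (((Ioc 0 M).filter fun n => s < n.primeFactors.card).card : ℝ) * 2 ^ s ≤ M * (t + 1) := by
  have h1 : ∀ n ∈ (Ioc 0 M).filter fun n => s < n.primeFactors.card,
      2 ^ s ≤ ArithmeticFunction.sigma 0 n := by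
    intro n hn
    obtain ⟨h1, h2⟩ := mem_filter.1 hn
    have h0 : n ≠ 0 := (mem_Ioc.1 h1).1.ne'
    rw [ArithmeticFunction.sigma_zero_apply, Nat.card_divisors h0]
    refine (Nat.pow_le_pow_right (by norm_num) h2.le).trans (pow_card_le_prod _ _ _ fun p hp => ?_)
    have := (Nat.prime_of_mem_primeFactors hp).factorization_pos_of_dvd h0
      (Nat.dvd_of_mem_primeFactors hp)
    omega
  have h2 := card_nsmul_le_sum _ _ _ h1
  have h3 := h2.trans (sum_le_sum_of_subset (filter_subset _ _))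
  rw [ArithmeticFunction.sum_Ioc_sigma0_eq_sum_div, smul_eq_mul] at h3
  have h4 : ((∑ n ∈ Ioc 0 M, M / n : ℕ) : ℝ) ≤ M * ∑ m ∈ Ioc 0 M, (1 : ℝ) / m := by
    rw [Nat.cast_sum, mul_sum]
    exact sum_le_sum fun n _ => Nat.cast_div_le.trans (le_of_eq (by ring))
  have h5 : (((Ioc 0 M).filter fun n => s < n.primeFactors.card).card : ℝ) * 2 ^ s ≤
      ((∑ n ∈ Ioc 0 M, M / n : ℕ) : ℝ) := by exact_mod_cast h3
  exact h5.trans (h4.trans (mul_le_mul_of_nonneg_left (sum_inv_le h) (Nat.cast_nonneg _)))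

open Classical in
theorem card_smooth_le (N i h : ℕ) :
    (((Ioc (2 ^ i) N).filter (fun n => ∀ p, p.Prime → p ∣ n → p ≤ 2 ^ h)).card : ℝ)
      * i ≤ 2 * N * (h + 2) := by
  set P := Nat.primesLE (2 ^ h) with hP
  have l2 := log_two_gt_d9
  have h1 : ∀ n ∈ (Ioc (2 ^ i) N).filter (fun n => ∀ p, p.Prime → p ∣ n → p ≤ 2 ^ h),
      i * log 2 ≤ ∑ p ∈ P, (n.factorization p : ℝ) * log p := by
    intro n hn
    obtain ⟨h1, h2⟩ := mem_filter.1 hn
    rw [mem_Ioc] at h1
    calc i * log 2 = log ((2 ^ i : ℕ) : ℝ) := by push_cast; rw [log_pow]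
      _ ≤ log n := log_le_log (by positivity) (by exact_mod_cast h1.1.le)
      _ = ∑ p ∈ n.primeFactors, (n.factorization p : ℝ) * log p := by
          rw [Real.log_nat_eq_sum_factorization]; rfl
      _ ≤ _ := by
          refine sum_le_sum_of_subset_of_nonneg (fun p hp => ?_) fun p _ _ =>
            mul_nonneg (Nat.cast_nonneg _) (log_natCast_nonneg p)
          exact Nat.mem_primesLE.2 ⟨h2 p (Nat.prime_of_mem_primeFactors hp)
            (Nat.dvd_of_mem_primeFactors hp), Nat.prime_of_mem_primeFactors hp⟩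
  have h2 : ∀ p ∈ P, ∑ n ∈ Ioc 0 N, (n.factorization p : ℝ) * log p ≤ 2 * N * (log p / p) := by
    intro p hp
    have hp' := Nat.prime_of_mem_primesLE hp
    have h3 : ∑ n ∈ Ioc 0 N, n.factorization p = N.factorial.factorization p := by
      have : N.factorial = ∏ n ∈ Ioc 0 N, n := by
        rw [← prod_Ico_id_eq_factorial]; rfl
      rw [this, Nat.factorization_prod_apply fun n hn => (mem_Ioc.1 hn).1.ne']
    have h4 := Nat.factorization_factorial_le_div_pred hp' N
    have h5 : (2 : ℝ) ≤ p := by exact_mod_cast hp'.two_le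
    have h6 : ((N.factorial.factorization p : ℕ) : ℝ) ≤ 2 * N / p := by
      calc _ ≤ ((N / (p - 1) : ℕ) : ℝ) := by exact_mod_cast h4
        _ ≤ (N : ℝ) / ((p - 1 : ℕ) : ℝ) := Nat.cast_div_le
        _ = N / ((p : ℝ) - 1) := by rw [Nat.cast_sub hp'.one_le, Nat.cast_one]
        _ ≤ _ := by
            rw [div_le_div_iff₀ (by linarith) (by linarith)]
            have : (0 : ℝ) ≤ N := Nat.cast_nonneg _
            nlinarith
    rw [← sum_mul, ← Nat.cast_sum, h3]
    calc _ ≤ 2 * N / p * log p := mul_le_mul_of_nonneg_right h6 (log_natCast_nonneg p)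
      _ = _ := by ring
  have h3 := sum_log_div_le (N := 2 ^ h) Nat.one_le_two_pow
  have h4 : log ((2 ^ h : ℕ) : ℝ) + log 4 = (h + 2) * log 2 := by
    rw [show (4 : ℝ) = 2 ^ 2 by norm_num]; push_cast; rw [log_pow, log_pow]; push_cast; ring
  have h5 := card_nsmul_le_sum _ _ _ h1
  rw [nsmul_eq_mul] at h5
  have h6 : ∑ n ∈ (Ioc (2 ^ i) N).filter (fun n => ∀ p, p.Prime → p ∣ n → p ≤ 2 ^ h),
      ∑ p ∈ P, (n.factorization p : ℝ) * log p ≤ 2 * N * ((h + 2) * log 2) := by
    calc _ ≤ ∑ n ∈ Ioc 0 N, ∑ p ∈ P, (n.factorization p : ℝ) * log p := by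
          refine sum_le_sum_of_subset_of_nonneg ((filter_subset _ _).trans
            (Ioc_subset_Ioc_left (Nat.zero_le _))) fun n _ _ => sum_nonneg fun p _ =>
            mul_nonneg (Nat.cast_nonneg _) (log_natCast_nonneg p)
      _ ≤ ∑ p ∈ P, 2 * N * (log p / p) := by rw [sum_comm]; exact sum_le_sum h2
      _ ≤ _ := by rw [← mul_sum, ← h4]; exact mul_le_mul_of_nonneg_left h3 (by positivity)
  have h7 := h5.trans h6
  apply le_of_mul_le_mul_right _ (show 0 < log 2 by linarith)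
  linarith

theorem card_prog_le {M m q T : ℕ} (hm : 0 < m) (hT : 0 < T) (hq : T < q) (hmT : m * T ≤ M) :
    (((range M).filter fun u => m ∣ u + 1 ∧ q ∣ u).card : ℝ) ≤ 2 * M / T * (1 / m) := by
  have h1 : ((range M).filter fun u => m ∣ u + 1 ∧ q ∣ u).card ≤ (range (M / (m * q) + 1)).card := by
    refine card_le_card_of_injOn (fun u => u / (m * q)) (fun u hu => ?_) fun u hu v hv huv => ?_
    · have := mem_range.1 (mem_filter.1 (mem_coe.1 hu)).1
      exact mem_coe.2 (mem_range.2 (Nat.lt_succ_of_le (Nat.div_le_div_right this.le)))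
    · obtain ⟨-, h1, h2⟩ := mem_filter.1 (mem_coe.1 hu)
      obtain ⟨-, h3, h4⟩ := mem_filter.1 (mem_coe.1 hv)
      have hc : Nat.Coprime m q := Nat.Coprime.coprime_dvd_left h1
        (Nat.Coprime.coprime_dvd_right h2 (by simp))
      have a1 : u ≡ v [MOD m] := Nat.ModEq.add_right_cancel' 1
        ((Nat.modEq_zero_iff_dvd.2 h1).trans (Nat.modEq_zero_iff_dvd.2 h3).symm)
      have a2 : u ≡ v [MOD q] :=
        (Nat.modEq_zero_iff_dvd.2 h2).trans (Nat.modEq_zero_iff_dvd.2 h4).symm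
      have a3 : u % (m * q) = v % (m * q) := (Nat.modEq_and_modEq_iff_modEq_mul hc).1 ⟨a1, a2⟩
      rw [← Nat.div_add_mod u (m * q), ← Nat.div_add_mod v (m * q), a3]
      exact congrArg (fun k => m * q * k + v % (m * q)) huv
  rw [card_range] at h1
  have hm' : (0 : ℝ) < m := by exact_mod_cast hm
  have hT' : (0 : ℝ) < T := by exact_mod_cast hT
  have hq' : (T : ℝ) ≤ q := by exact_mod_cast hq.le
  have hM : (m : ℝ) * T ≤ M := by exact_mod_cast hmT
  have h2 : ((M / (m * q) : ℕ) : ℝ) ≤ M / (m * T) := by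
    refine Nat.cast_div_le.trans ?_
    push_cast
    gcongr
  have h3 : (1 : ℝ) ≤ M / (m * T) := by rwa [le_div_iff₀ (by positivity), one_mul]
  have h4 : (((range M).filter fun u => m ∣ u + 1 ∧ q ∣ u).card : ℝ) ≤
      ((M / (m * q) : ℕ) : ℝ) + 1 := by exact_mod_cast h1
  have e : 2 * (M : ℝ) / T * (1 / m) = 2 * (M / (m * T)) := by field_simp
  rw [e]; linarith

/-- The main exceptional set. -/
def mainSet (M T s B : ℕ) : Finset ℕ :=
  ((Ioc 0 M).filter fun m => m.primeFactors.card ≤ s ∧ m * T ≤ M).biUnion fun m =>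
    (range (B + 1)).biUnion fun b => (m ^ B).divisors.biUnion fun m' =>
      ((((m' : ℤ) - (m : ℤ) ^ b).natAbs.primeFactors).filter fun q => T < q).biUnion fun q =>
        (range M).filter fun u => m ∣ u + 1 ∧ q ∣ u

theorem card_biUnion_le_real {α β : Type*} [DecidableEq β] (S : Finset α) (f : α → Finset β)
    {c k : ℝ} (hc : 0 ≤ c) (hk : (S.card : ℝ) ≤ k) (h : ∀ a ∈ S, ((f a).card : ℝ) ≤ c) :
    ((S.biUnion f).card : ℝ) ≤ k * c := by
  have h1 : ((S.biUnion f).card : ℝ) ≤ ∑ a ∈ S, ((f a).card : ℝ) := by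
    exact_mod_cast card_biUnion_le
  refine h1.trans ((sum_le_card_nsmul _ _ c h).trans ?_)
  rw [nsmul_eq_mul]
  exact mul_le_mul_of_nonneg_right hk hc

theorem card_mainSet_le {M T s B t : ℕ} (hT : 0 < T) (hM : M < 2 ^ t) (ht : 1 ≤ t) :
    ((mainSet M T s B).card : ℝ) ≤ ((B * t + 1 : ℕ) : ℝ) ^ (s + 2) * (2 * M / T) * (t + 1) := by
  set D : ℝ := ((B * t + 1 : ℕ) : ℝ) with hD
  have hD0 : 0 ≤ D := Nat.cast_nonneg _
  have h1 : ∀ m ∈ (Ioc 0 M).filter fun m => m.primeFactors.card ≤ s ∧ m * T ≤ M,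
      (((range (B + 1)).biUnion fun b => (m ^ B).divisors.biUnion fun m' =>
      ((((m' : ℤ) - (m : ℤ) ^ b).natAbs.primeFactors).filter fun q => T < q).biUnion fun q =>
        (range M).filter fun u => m ∣ u + 1 ∧ q ∣ u).card : ℝ) ≤
        D ^ (s + 2) * (2 * M / T) * (1 / m) := by
    intro m hm
    obtain ⟨h1, h2, h3⟩ := mem_filter.1 hm
    obtain ⟨hm0, hmM⟩ := mem_Ioc.1 h1
    have hmt : m ≤ 2 ^ t := by omega
    have hmB : m ^ B ≤ 2 ^ (B * t) := by
      rw [mul_comm, pow_mul]; exact Nat.pow_le_pow_left hmt _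
    have e : D ^ (s + 2) * (2 * M / T) * (1 / m) = D * (D ^ s * (D * (2 * M / T * (1 / m)))) := by
      ring
    rw [e]
    refine card_biUnion_le_real _ _ (by positivity) ?_ fun b hb =>
      card_biUnion_le_real _ _ (by positivity) ?_ fun m' hm' =>
        card_biUnion_le_real _ _ (by positivity) ?_ fun q hq =>
          card_prog_le hm0 hT (mem_filter.1 hq).2 h3
    · rw [card_range, hD]
      exact_mod_cast (by nlinarith : B + 1 ≤ B * t + 1)
    · have h4 : (m ^ B).divisors.card ≤ (B * t + 1) ^ s := by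
        rw [Nat.card_divisors (by positivity)]
        refine (prod_le_pow_card _ _ (B * t + 1) fun p hp => ?_).trans
          (Nat.pow_le_pow_right (by omega) (le_trans (card_le_card fun p hp => ?_) h2))
        · have h5 : 2 ^ (m ^ B).factorization p ≤ 2 ^ (B * t) :=
            (Nat.pow_le_pow_left (Nat.prime_of_mem_primeFactors hp).two_le _).trans
              ((Nat.ordProj_le p (by positivity)).trans hmB)
          have := (Nat.pow_le_pow_iff_right (by norm_num)).1 h5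
          omega
        · obtain ⟨a1, a2, -⟩ := Nat.mem_primeFactors.1 hp
          exact Nat.mem_primeFactors.2 ⟨a1, a1.dvd_of_dvd_pow a2, hm0.ne'⟩
      rw [hD]; exact_mod_cast h4
    · have h4 : m' ≤ 2 ^ (B * t) := (Nat.divisor_le hm').trans hmB
      have h5 : m ^ b ≤ 2 ^ (B * t) :=
        (Nat.pow_le_pow_right hm0 (Nat.lt_succ_iff.1 (mem_range.1 hb))).trans hmB
      have h6 : ((m' : ℤ) - (m : ℤ) ^ b).natAbs ≤ 2 ^ (B * t) := by
        rw [← Nat.cast_pow]; omega
      have h7 := (card_filter_le _ fun q => T < q).trans (card_primeFactors_le h6)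
      rw [hD]; exact_mod_cast h7.trans (Nat.le_succ _)
  have h2 : ((mainSet M T s B).card : ℝ) ≤ ∑ m ∈ (Ioc 0 M).filter
      fun m => m.primeFactors.card ≤ s ∧ m * T ≤ M, D ^ (s + 2) * (2 * M / T) * (1 / m) :=
    le_trans (by rw [← Nat.cast_sum]; exact Nat.cast_le.2 card_biUnion_le) (sum_le_sum h1)
  refine h2.trans ?_
  rw [← mul_sum]
  refine mul_le_mul_of_nonneg_left (le_trans ?_ (sum_inv_le hM)) (by positivity)
  exact sum_le_sum_of_subset_of_nonneg (filter_subset _ _) fun m _ _ => by positivity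

/-- `x` has a false square. -/
def Bad (x : ℕ) : Prop := x < 2 ∨ ∃ y, Psi x y ∧ y ≠ x ^ 2

open Classical in
theorem card_bad_le {M i h s x0 B : ℕ} (hl : log M ≤ x0) (hx0 : 1296 * (3 * s + 1) ^ 4 ≤ x0)
    (hB : 2 * x0 ^ (5 * (3 * s) ^ 2 + 5 * (3 * s) + 9) ≤ B) :
    ((range (M - 1)).filter fun u => Bad (u + 1)).card ≤ 2 ^ i + 1 +
      3 * ((Ioc 0 M).filter fun n => s < n.primeFactors.card).card +
      2 * ((Ioc (2 ^ i) M).filter (fun n => ∀ p, p.Prime → p ∣ n → p ≤ 2 ^ h)).card +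
      (mainSet M (2 ^ h) s B).card := by
  set A := (Ioc 0 M).filter fun n => s < n.primeFactors.card with hA
  set C := (Ioc (2 ^ i) M).filter (fun n => ∀ p, p.Prime → p ∣ n → p ≤ 2 ^ h) with hC
  have hsub : ((range (M - 1)).filter fun u => Bad (u + 1)) ⊆ range (2 ^ i + 1) ∪
      (A ∪ A.image (· - 1) ∪ A.image (· - 2)) ∪ (C ∪ C.image (· - 1)) ∪ mainSet M (2 ^ h) s B := by
    intro u hu
    obtain ⟨h1, h2⟩ := mem_filter.1 hu
    have huM := mem_range.1 h1
    by_contra hcon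
    simp only [mem_union, not_or, mem_range, not_lt, mem_image, not_exists, not_and] at hcon
    obtain ⟨⟨⟨c0, ⟨c1, c2⟩, c3⟩, c4, c5⟩, c6⟩ := hcon
    have hpos : 0 < 2 ^ i := by positivity
    have hAle : ∀ n, 0 < n → n ≤ M → n ∉ A → n.primeFactors.card ≤ s := fun n a1 a2 a3 => by
      by_contra hn
      exact a3 (mem_filter.2 ⟨mem_Ioc.2 ⟨a1, a2⟩, by omega⟩)
    have hCle : ∀ n, 2 ^ i < n → n ≤ M → n ∉ C → ∃ p, p.Prime ∧ p ∣ n ∧ 2 ^ h < p :=
      fun n a1 a2 a3 => by
        by_contra hn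
        push Not at hn
        exact a3 (mem_filter.2 ⟨mem_Ioc.2 ⟨a1, a2⟩, hn⟩)
    have d1 := hAle u (by omega) (by omega) c1
    have d2 := hAle (u + 1) (by omega) (by omega) fun h => c2 _ h rfl
    have d3 := hAle (u + 2) (by omega) (by omega) fun h => c3 _ h rfl
    obtain ⟨q, hq, hqu, hqT⟩ := hCle u (by omega) (by omega) c4
    obtain ⟨p, hp, hpu, hpT⟩ := hCle (u + 1) (by omega) (by omega) fun h => c5 _ h rfl
    rcases h2 with h2 | ⟨y, hy, hne⟩
    · omega
    obtain ⟨b, hb, m', hm', hq'⟩ := bad_structure hy hne hp hpu hq hqu d1 d2 d3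
      ((log_le_log (by positivity) (by exact_mod_cast (by omega : u + 2 ≤ M))).trans hl) hx0 hB
    have hdvd : (u + 1) / p ∣ u + 1 := Nat.div_dvd_of_dvd hpu
    have hmul : (u + 1) / p * p = u + 1 := Nat.div_mul_cancel hpu
    refine c6 (mem_biUnion.2 ⟨(u + 1) / p, mem_filter.2 ⟨mem_Ioc.2 ⟨?_, ?_⟩, ?_, ?_⟩,
      mem_biUnion.2 ⟨b, mem_range.2 (by omega), mem_biUnion.2 ⟨m', hm', mem_biUnion.2
        ⟨q, mem_filter.2 ⟨hq', hqT⟩, mem_filter.2 ⟨mem_range.2 (by omega), hdvd, hqu⟩⟩⟩⟩⟩)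
    · exact Nat.pos_of_dvd_of_pos hdvd (by omega)
    · exact (Nat.div_le_self _ _).trans (by omega)
    · exact (card_le_card (Nat.primeFactors_mono hdvd (by omega))).trans d2
    · exact (Nat.mul_le_mul_left _ hpT.le).trans (by omega)
  refine (card_le_card hsub).trans ?_
  have a1 := card_union_le (range (2 ^ i + 1) ∪
      (A ∪ A.image (· - 1) ∪ A.image (· - 2)) ∪ (C ∪ C.image (· - 1))) (mainSet M (2 ^ h) s B)
  have a2 := card_union_le (range (2 ^ i + 1) ∪
      (A ∪ A.image (· - 1) ∪ A.image (· - 2))) (C ∪ C.image (· - 1))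
  have a3 := card_union_le (range (2 ^ i + 1)) (A ∪ A.image (· - 1) ∪ A.image (· - 2))
  have a4 := card_union_le (A ∪ A.image (· - 1)) (A.image (· - 2))
  have a5 := card_union_le A (A.image (· - 1))
  have a6 := card_union_le C (C.image (· - 1))
  have a7 : (A.image (· - 1)).card ≤ A.card := card_image_le
  have a8 : (A.image (· - 2)).card ≤ A.card := card_image_le
  have a9 : (C.image (· - 1)).card ≤ C.card := card_image_le
  rw [card_range] at a3
  omega

end Pool.Agent.P.MP_ed9a6e_lc
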