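import Pool.Agent.P.MP_ed9a6e_lc.Count

/-! Density of the exceptional set, and definability. -/

set_option autoImplicit false

namespace Pool.Agent.P.MP_ed9a6e_lc

open Finset Real Filter Topology

theorem pow_aux {r : ℕ} (hr : 1800 ≤ r) : 1296 * (3 * (2 * r) + 1) ^ 4 ≤ 2 ^ (2 * r) := by
  have h1 : ∀ k : ℕ, 40 ≤ k → 36 * (6 * k + 1) ^ 2 ≤ 2 ^ k := by
    intro k hk
    induction k, hk using Nat.le_induction with
    | base => norm_num
    | succ k hk ih => rw [pow_succ 2 k]; nlinarith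
  have h2 := Nat.pow_le_pow_left (h1 r (by omega)) 2
  calc 1296 * (3 * (2 * r) + 1) ^ 4 = (36 * (6 * r + 1) ^ 2) ^ 2 := by ring
    _ ≤ (2 ^ r) ^ 2 := h2
    _ = _ := by rw [← pow_mul, mul_comm]

open Classical in
theorem card_bad_le_mul {N : ℕ} (hr : 1800 ≤ Nat.log 2 (Nat.log 2 N + 1) + 1) :
    (((range N).filter Bad).card : ℝ) ≤ 60 * (((Nat.log 2 (Nat.log 2 N + 1) + 1 : ℕ) : ℝ) ^ 5 /
      2 ^ (Nat.log 2 (Nat.log 2 N + 1) + 1)) * N := by
  set t := Nat.log 2 N + 1 with ht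
  set r := Nat.log 2 t + 1 with hrdef
  have hN0 : N ≠ 0 := by rintro rfl; simp [ht] at hrdef; omega
  have hNt : N < 2 ^ t := Nat.lt_pow_succ_log_self (by norm_num) N
  have htr : t < 2 ^ r := Nat.lt_pow_succ_log_self (by norm_num) t
  have hNt' : 2 ^ t ≤ 2 * N := by
    rw [ht, pow_succ']; exact Nat.mul_le_mul_left _ (Nat.pow_log_le_self 2 hN0)
  have htr' : 2 ^ r ≤ 2 * t := by
    rw [hrdef, pow_succ']; exact Nat.mul_le_mul_left _ (Nat.pow_log_le_self 2 (by omega))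
  have htN : t ≤ N := by
    have := Nat.log_lt_self 2 hN0
    omega
  clear_value r t
  clear hrdef ht
  have h4r : 4 * r ≤ 2 ^ r := by
    have h1 : ∀ k : ℕ, 4 ≤ k → 4 * k ≤ 2 ^ k := by
      intro k hk
      induction k, hk using Nat.le_induction with
      | base => norm_num
      | succ k hk ih => rw [pow_succ 2 k]; omega
    exact h1 r (by omega)
  have hrt : 2 * r ≤ t := by omega
  have hrr : 2 ^ r ≤ 2 ^ (2 * r) := Nat.pow_le_pow_right (by norm_num) (by omega)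
  have hr2 : r ≤ r ^ 2 := Nat.le_self_pow (by norm_num) _
  have hr3 : r ^ 2 ≤ r ^ 3 := Nat.pow_le_pow_right (by omega) (by norm_num)
  have key := card_bad_le (M := N) (i := t - r) (h := r ^ 5) (s := 2 * r) (x0 := 2 ^ (2 * r))
    (B := 2 ^ (439 * r ^ 3))
    (by
      have h1 : (N : ℝ) ≤ 2 ^ t := by exact_mod_cast hNt.le
      have h2 := log_le_log (by positivity) h1
      rw [log_pow] at h2
      have h3 : (t : ℝ) ≤ (2 ^ (2 * r) : ℕ) := by exact_mod_cast (by omega : t ≤ 2 ^ (2 * r))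
      have := log_two_lt_d9
      have : (0 : ℝ) ≤ t := Nat.cast_nonneg _
      nlinarith)
    (pow_aux hr)
    (by
      rw [← pow_mul, ← pow_succ']
      refine Nat.pow_le_pow_right (by norm_num) ?_
      have e : 2 * r * (5 * (3 * (2 * r)) ^ 2 + 5 * (3 * (2 * r)) + 9) + 1 =
        360 * r ^ 3 + 60 * r ^ 2 + 18 * r + 1 := by ring
      omega)
  have h0 : ((range N).filter Bad).card ≤
      1 + ((range (N - 1)).filter fun u => Bad (u + 1)).card := by
    refine le_trans (card_le_card (t := {0} ∪ ((range (N - 1)).filter fun u =>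
      Bad (u + 1)).image (· + 1)) fun x hx => ?_) ((card_union_le _ _).trans ?_)
    · obtain ⟨h1, h2⟩ := mem_filter.1 hx
      obtain _ | u := x
      · simp
      · refine mem_union_right _ (mem_image.2 ⟨u, mem_filter.2 ⟨mem_range.2 ?_, h2⟩, rfl⟩)
        have := mem_range.1 h1; omega
    · rw [card_singleton]; exact Nat.add_le_add_left card_image_le _
  have k1 := card_omega_le (2 * r) hNt
  have k2 := card_smooth_le N (t - r) (r ^ 5)
  have k3 := card_mainSet_le (T := 2 ^ r ^ 5) (s := 2 * r) (B := 2 ^ (439 * r ^ 3))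
    (by positivity) hNt (by omega)
  have k0 := h0.trans (Nat.add_le_add_left key 1)
  generalize ((Ioc 0 N).filter fun n => 2 * r < n.primeFactors.card).card = a1 at k0 k1
  generalize ((Ioc (2 ^ (t - r)) N).filter
    (fun n => ∀ p, p.Prime → p ∣ n → p ≤ 2 ^ r ^ 5)).card = a2 at k0 k2
  generalize (mainSet N (2 ^ r ^ 5) (2 * r) (2 ^ (439 * r ^ 3))).card = a3 at k0 k3
  generalize ((range N).filter Bad).card = a0 at k0
  set R : ℝ := 2 ^ r with hR
  have hR0 : 0 < R := by positivity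
  have hN : (0 : ℝ) ≤ N := Nat.cast_nonneg _
  have htR : (t : ℝ) + 1 ≤ R := by rw [hR]; exact_mod_cast htr
  have hRt : R ≤ 2 * t := by rw [hR]; exact_mod_cast htr'
  have htN' : (t : ℝ) ≤ N := by exact_mod_cast htN
  have b0 : ((2 ^ (t - r) : ℕ) : ℝ) * R ≤ 2 * N := by
    have : 2 ^ (t - r) * 2 ^ r ≤ 2 * N := by
      rw [← pow_add, Nat.sub_add_cancel (by omega)]; exact hNt'
    rw [hR]; exact_mod_cast this
  have b1 : (a1 : ℝ) * R ≤ N := by
    rw [pow_mul', ← hR] at k1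
    have : (N : ℝ) * (t + 1) ≤ N * R := mul_le_mul_of_nonneg_left htR hN
    exact le_of_mul_le_mul_right (by nlinarith) hR0
  have b2 : (a2 : ℝ) * R ≤ 8 * N * ((r : ℝ) ^ 5 + 2) := by
    have h1 : R ≤ 4 * ((t - r : ℕ) : ℝ) := by
      rw [hR]; exact_mod_cast (by omega : 2 ^ r ≤ 4 * (t - r))
    have h2 : (0 : ℝ) ≤ a2 := Nat.cast_nonneg _
    push_cast at k2
    nlinarith
  have b3 : (a3 : ℝ) * R ≤ N := by
    have h1 : 2 ^ (439 * r ^ 3) * t + 1 ≤ 2 ^ (440 * r ^ 3) := by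
      have h2 : 2 ^ r ≤ 2 ^ r ^ 3 := Nat.pow_le_pow_right (by norm_num) (by omega)
      have h3 : 1 ≤ 2 ^ (439 * r ^ 3) := Nat.one_le_two_pow
      calc 2 ^ (439 * r ^ 3) * t + 1 ≤ 2 ^ (439 * r ^ 3) * (t + 1) := by nlinarith
        _ ≤ 2 ^ (439 * r ^ 3) * 2 ^ r ^ 3 := Nat.mul_le_mul_left _ (by omega)
        _ = _ := by rw [← pow_add]; congr 1; ring
    have h2 : (2 ^ (439 * r ^ 3) * t + 1) ^ (2 * r + 2) * 2 * 2 ^ r * 2 ^ r ≤ 2 ^ r ^ 5 := by
      calc _ ≤ (2 ^ (440 * r ^ 3)) ^ (2 * r + 2) * 2 * 2 ^ r * 2 ^ r := by gcongr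
        _ = 2 ^ (440 * r ^ 3 * (2 * r + 2) + 1 + r + r) := by
            rw [← pow_mul, ← pow_succ, ← pow_add, ← pow_add]
        _ ≤ _ := by
            refine Nat.pow_le_pow_right (by norm_num) ?_
            have h5 : r ^ 3 ≤ r ^ 4 := Nat.pow_le_pow_right (by omega) (by norm_num)
            have h6 : 1800 * r ^ 4 ≤ r ^ 5 := by rw [pow_succ' r 4]; gcongr
            have e : 440 * r ^ 3 * (2 * r + 2) = 880 * r ^ 4 + 880 * r ^ 3 := by ring
            omega
    have h3 : ((2 ^ (439 * r ^ 3) * t + 1 : ℕ) : ℝ) ^ (2 * r + 2) * 2 * R * R ≤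
        ((2 ^ r ^ 5 : ℕ) : ℝ) := by rw [hR]; exact_mod_cast h2
    generalize ((2 ^ (439 * r ^ 3) * t + 1 : ℕ) : ℝ) ^ (2 * r + 2) = D at k3 h3
    have hT : (0 : ℝ) < ((2 ^ r ^ 5 : ℕ) : ℝ) := by positivity
    generalize ((2 ^ r ^ 5 : ℕ) : ℝ) = T at k3 h3 hT
    have h4 : D * (2 * N / T) * (t + 1) * R = (D * (N / T)) * (2 * (t + 1) * R) := by ring
    have h5 : 0 ≤ D * (2 * N / T) * (t + 1) := le_trans (Nat.cast_nonneg _) k3
    have h6 : 0 ≤ D * (2 * N / T) := by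
      have : (0 : ℝ) < t + 1 := by positivity
      exact nonneg_of_mul_nonneg_left h5 this
    calc (a3 : ℝ) * R ≤ D * (2 * N / T) * (t + 1) * R := mul_le_mul_of_nonneg_right k3 hR0.le
      _ ≤ D * (2 * N / T) * R * R := by gcongr
      _ = (D * 2 * R * R) * (N / T) := by ring
      _ ≤ T * (N / T) := mul_le_mul_of_nonneg_right h3 (by positivity)
      _ = N := by field_simp
  have k4 : (a0 : ℝ) ≤ 1 + (((2 ^ (t - r) : ℕ) : ℝ) + 1 + 3 * a1 + 2 * a2 + a3) := by
    exact_mod_cast k0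
  have hr5 : (1 : ℝ) ≤ (r : ℝ) ^ 5 := one_le_pow₀ (by exact_mod_cast (by omega : 1 ≤ r))
  have k5 : (a0 : ℝ) * R ≤ 60 * (r : ℝ) ^ 5 * N := by
    have := mul_le_mul_of_nonneg_right k4 hR0.le
    have h7 : (N : ℝ) * 1 ≤ N * (r : ℝ) ^ 5 := mul_le_mul_of_nonneg_left hr5 hN
    nlinarith
  rw [← le_div_iff₀ hR0] at k5
  refine k5.trans (le_of_eq ?_)
  ring

theorem tendsto_log_succ : Tendsto (fun n => Nat.log 2 n + 1) atTop atTop := by
  refine tendsto_atTop_atTop.2 fun k => ⟨2 ^ k, fun n hn => ?_⟩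
  exact (Nat.le_log_of_pow_le (by norm_num) hn).trans (Nat.le_succ _)

open Classical in
theorem tendsto_bad :
    Tendsto (fun N : ℕ => (((range N).filter Bad).card : ℝ) / N) atTop (𝓝 0) := by
  have h1 := tendsto_log_succ.comp tendsto_log_succ
  have h2 := ((tendsto_pow_const_div_const_pow_of_one_lt 5 (one_lt_two (α := ℝ))).comp
    h1).const_mul 60
  rw [mul_zero] at h2
  refine squeeze_zero' (Eventually.of_forall fun N => by positivity) ?_ h2
  filter_upwards [h1.eventually_ge_atTop 1800, eventually_gt_atTop 0] with N hN h0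
  rw [div_le_iff₀ (by exact_mod_cast h0)]
  exact card_bad_le_mul hN

open FirstOrder FirstOrder.Language

/-- The language with one unary function symbol and one binary relation symbol. -/
def Lsc : FirstOrder.Language.{0, 0} := ⟨fun n => PLift (n = 1), fun n => PLift (n = 2)⟩

/-- Successor and coprimality. -/
@[reducible] def str : Lsc.Structure ℕ where
  funMap := fun {n} f v => v ⟨0, by have := f.down; omega⟩ + 1
  RelMap := fun {n} r v =>
    Nat.Coprime (v ⟨0, by have := r.down; omega⟩) (v ⟨1, by have := r.down; omega⟩)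

attribute [local instance] str

/-- Term functions. -/
def TD {α : Type} (f : (α → ℕ) → ℕ) : Prop := ∃ t : Lsc.Term α, ∀ v : α → ℕ, t.realize v = f v

/-- Definable predicates. -/
def D {α : Type} (P : (α → ℕ) → Prop) : Prop := (∅ : Set ℕ).Definable Lsc {v | P v}

variable {α : Type}

theorem TD.var (i : α) : TD (fun v : α → ℕ => v i) := ⟨Term.var i, fun _ => rfl⟩

theorem TD.succ {f : (α → ℕ) → ℕ} (hf : TD f) : TD (fun v => f v + 1) := by
  obtain ⟨s, hs⟩ := hf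
  refine ⟨Term.func (l := 1) ⟨rfl⟩ ![s], fun v => ?_⟩
  show s.realize v + 1 = _
  rw [hs]

theorem TD.up {f : (α → ℕ) → ℕ} (hf : TD f) :
    TD (fun w : Option α → ℕ => f (fun i => w (some i))) := by
  obtain ⟨s, hs⟩ := hf
  refine ⟨s.relabel some, fun v => ?_⟩
  rw [Term.realize_relabel, hs]
  rfl

theorem D.eq {f g : (α → ℕ) → ℕ} (hf : TD f) (hg : TD g) : D (fun v => f v = g v) := by
  obtain ⟨s, hs⟩ := hf
  obtain ⟨t, ht⟩ := hg
  unfold D
  rw [Set.empty_definable_iff]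
  refine ⟨s.equal t, ?_⟩
  ext v
  simp [hs, ht]

theorem D.cop {f g : (α → ℕ) → ℕ} (hf : TD f) (hg : TD g) :
    D (fun v => Nat.Coprime (f v) (g v)) := by
  obtain ⟨s, hs⟩ := hf
  obtain ⟨t, ht⟩ := hg
  unfold D
  rw [Set.empty_definable_iff]
  refine ⟨Relations.formula₂ (L := Lsc) ⟨rfl⟩ s t, ?_⟩
  ext v
  simp only [Set.mem_ofPred_eq, Formula.realize_rel₂]
  rw [← hs, ← ht]
  rfl

theorem D.and {P Q : (α → ℕ) → Prop} (hP : D P) (hQ : D Q) : D (fun v => P v ∧ Q v) :=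
  Set.Definable.inter hP hQ

theorem D.not {P : (α → ℕ) → Prop} (hP : D P) : D (fun v => ¬ P v) :=
  Set.Definable.compl hP

theorem D.of_iff {P Q : (α → ℕ) → Prop} (hP : D P) (h : ∀ v, P v ↔ Q v) : D Q := by
  rwa [← funext fun v => propext (h v)]

theorem D.imp {P Q : (α → ℕ) → Prop} (hP : D P) (hQ : D Q) : D (fun v => P v → Q v) :=
  (hP.and hQ.not).not.of_iff fun v => by tauto

theorem D.iff {P Q : (α → ℕ) → Prop} (hP : D P) (hQ : D Q) : D (fun v => P v ↔ Q v) :=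
  ((hP.imp hQ).and (hQ.imp hP)).of_iff fun v => by tauto

theorem D.ex {P : (α → ℕ) → ℕ → Prop}
    (h : D (fun w : Option α → ℕ => P (fun i => w (some i)) (w none))) :
    D (fun v => ∃ x, P v x) := by
  have h1 : (∅ : Set ℕ).Definable Lsc
      ((fun g : α ⊕ Unit → ℕ => g ∘ (fun o : Option α => o.elim (Sum.inr ()) Sum.inl)) ⁻¹'
        {w : Option α → ℕ | P (fun i => w (some i)) (w none)}) :=
    Set.Definable.preimage_comp _ h
  have h2 := Set.Definable.exists_of_finite h1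
  exact D.of_iff h2 fun v => ⟨fun ⟨u, hu⟩ => ⟨u (), hu⟩, fun ⟨x, hx⟩ => ⟨fun _ => x, hx⟩⟩

theorem D.all {P : (α → ℕ) → ℕ → Prop}
    (h : D (fun w : Option α → ℕ => P (fun i => w (some i)) (w none))) :
    D (fun v => ∀ x, P v x) :=
  (D.ex (P := fun v x => ¬ P v x) h.not).not.of_iff fun v => by simp

theorem D.psi {f g : (α → ℕ) → ℕ} (hf : TD f) (hg : TD g) : D (fun v => Psi (f v) (g v)) :=
  D.ex (D.ex (D.and (D.eq hf.up.up (TD.var (some none)).succ)
    (D.and (D.eq hg.up.up (TD.var none).succ) (D.and (D.eq hg.up.up hf.up.up).not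
      (D.and (D.all (D.imp (D.cop (TD.var none) hf.up.up.up) (D.cop (TD.var none) hg.up.up.up)))
        (D.all (D.iff (D.cop (TD.var none) (TD.var (some none)))
          (D.and (D.cop (TD.var none) (TD.var (some (some none))))
            (D.cop (TD.var none) hf.up.up.up.succ)))))))))

theorem definable_good :
    (∅ : Set ℕ).Definable Lsc {v : Fin 2 → ℕ | ¬ Bad (v 0) ∧ v 1 = v 0 ^ 2} := by
  have h : D (fun v : Fin 2 → ℕ => Psi (v 0) (v 1) ∧ ∀ y, Psi (v 0) y → y = v 1) :=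
    D.and (D.psi (TD.var 0) (TD.var 1))
      (D.all (D.imp (D.psi (TD.var (some 0)) (TD.var none)) (D.eq (TD.var none) (TD.var (some 1)))))
  refine h.of_iff fun v => ?_
  unfold Bad
  push Not
  constructor
  · rintro ⟨h1, h2⟩
    have h3 := two_le_of_psi h1
    have h4 := h2 _ (psi_sq h3)
    exact ⟨⟨h3, fun y hy => (h2 y hy).trans h4.symm⟩, h4.symm⟩
  · rintro ⟨⟨h1, h2⟩, h3⟩
    rw [h3]
    exact ⟨psi_sq h1, h2⟩

theorem main :
    ∃ (L : FirstOrder.Language.{0, 0}) (_i : L.Structure ℕ),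
      (∀ (n : ℕ) (f : L.Functions n), ∃ i : Fin n,
        ∀ v : Fin n → ℕ, Structure.funMap f v = v i + 1) ∧
      (∀ (n : ℕ) (r : L.Relations n), ∃ i j : Fin n,
        ∀ v : Fin n → ℕ, (Structure.RelMap r v ↔ Nat.Coprime (v i) (v j))) ∧
      ∃ X : Set ℕ,
        Tendsto (fun N : ℕ => (({x | x < N ∧ x ∉ X}.ncard : ℕ) : ℝ) / N) atTop (𝓝 0) ∧
        (∅ : Set ℕ).Definable L {v : Fin 2 → ℕ | v 0 ∈ X ∧ v 1 = v 0 ^ 2} := by
  classical
  refine ⟨Lsc, str, fun n f => ⟨_, fun v => rfl⟩, fun n r => ⟨_, _, fun v => Iff.rfl⟩,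
    {x | ¬ Bad x}, tendsto_bad.congr fun N => ?_, definable_good⟩
  rw [← Set.ncard_coe_finset]
  congr 3
  ext x
  simp

end Pool.Agent.P.MP_ed9a6e_lc
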