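import Mathlib

set_option autoImplicit false

/-! Elementary lemmas: almost coprime divisors, splitting off large prime powers, digits. -/

namespace Pool.Agent.P.MP_ed9a6e_lc.Sp

open Finset

theorem gcd_prod_dvd {ι : Type*} (S : Finset ι) (a : ι → ℕ) (b g : ℕ)
    (hg : ∀ i ∈ S, Nat.gcd b (a i) ∣ g) : Nat.gcd b (∏ i ∈ S, a i) ∣ g ^ S.card := by
  classical
  induction S using Finset.induction_on with
  | empty => simp
  | insert j S hj ih =>
    rw [prod_insert hj, card_insert_of_notMem hj, pow_succ']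
    exact (Nat.gcd_mul_right_dvd_mul_gcd b _ _).trans
      (mul_dvd_mul (hg j (mem_insert_self _ _)) (ih fun i hi => hg i (mem_insert_of_mem hi)))

theorem prod_dvd {ι : Type*} (S : Finset ι) (a : ι → ℕ) (V g : ℕ) (hV : ∀ i ∈ S, a i ∣ V)
    (hg : ∀ i ∈ S, ∀ j ∈ S, i ≠ j → Nat.gcd (a i) (a j) ∣ g) :
    ∏ i ∈ S, a i ∣ g ^ (S.card ^ 2) * V := by
  classical
  induction S using Finset.induction_on with
  | empty => simp
  | insert j S hj ih =>
    have h1 := ih (fun i hi => hV i (mem_insert_of_mem hi))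
      (fun i hi k hk => hg i (mem_insert_of_mem hi) k (mem_insert_of_mem hk))
    have h2 : a j ∣ g ^ (S.card ^ 2) * V := (hV j (mem_insert_self _ _)).mul_left _
    have h3 := gcd_prod_dvd S a (a j) g fun i hi =>
      hg j (mem_insert_self _ _) i (mem_insert_of_mem hi) (fun h => hj (h ▸ hi))
    rw [prod_insert hj, card_insert_of_notMem hj, ← Nat.gcd_mul_lcm]
    refine (mul_dvd_mul h3 (Nat.lcm_dvd h2 h1)).trans ?_
    rw [← mul_assoc, ← pow_add]
    exact mul_dvd_mul_right (pow_dvd_pow _ (by nlinarith)) _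

/-- common divisors of two shifts divide a factorial -/
theorem gcd_shift_dvd {w i j c a b : ℕ} (hi : i < c) (hj : j < c) (hij : i ≠ j) (ha : a ∣ w + i)
    (hb : b ∣ w + j) : Nat.gcd a b ∣ c.factorial := by
  have h1 : Nat.gcd a b ∣ w + i := (Nat.gcd_dvd_left a b).trans ha
  have h2 : Nat.gcd a b ∣ w + j := (Nat.gcd_dvd_right a b).trans hb
  rcases lt_or_gt_of_ne hij with h | h
  · have h3 : Nat.gcd a b ∣ j - i := by
      have := Nat.dvd_sub h2 h1
      rwa [show w + j - (w + i) = j - i by omega] at this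
    exact h3.trans (Nat.dvd_factorial (by omega) (by omega))
  · have h3 : Nat.gcd a b ∣ i - j := by
      have := Nat.dvd_sub h1 h2
      rwa [show w + i - (w + j) = i - j by omega] at this
    exact h3.trans (Nat.dvd_factorial (by omega) (by omega))

theorem cube_dvd {m q u T : ℕ} (hm : m ≠ 0) (hq : q ≠ 0) (hu : u ≠ 0) (hT : 4 * u ≤ T)
    (h : ∀ p, p.Prime → p ∣ m → p ∣ q) :
    m ^ 3 ∣ Nat.gcd m (q ^ T) ^ 3 * Nat.floorRoot u m ^ (4 * u) := by
  have h1 : Nat.gcd m (q ^ T) ≠ 0 := (Nat.gcd_pos_of_pos_left _ (Nat.pos_of_ne_zero hm)).ne'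
  have h2 : Nat.floorRoot u m ≠ 0 := Nat.floorRoot_ne_zero.2 ⟨hu, hm⟩
  rw [← Nat.factorization_prime_le_iff_dvd (pow_ne_zero _ hm)
    (mul_ne_zero (pow_ne_zero _ h1) (pow_ne_zero _ h2))]
  intro p hp
  rw [Nat.factorization_mul (pow_ne_zero _ h1) (pow_ne_zero _ h2), Nat.factorization_pow,
    Nat.factorization_pow, Nat.factorization_pow, Nat.factorization_gcd hm (pow_ne_zero _ hq),
    Nat.factorization_pow, Nat.factorization_floorRoot]
  simp only [Finsupp.add_apply, Finsupp.smul_apply, smul_eq_mul, Finsupp.inf_apply,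
    Finsupp.floorDiv_apply, Nat.floorDiv_eq_div]
  set e := m.factorization p with he
  set f := q.factorization p with hf
  by_cases h0 : e = 0
  · simp [h0]
  have hf1 : 1 ≤ f := hp.factorization_pos_of_dvd hq (h p hp (Nat.dvd_of_factorization_pos h0))
  have h3 := Nat.div_add_mod e u
  have h4 := Nat.mod_lt e (Nat.pos_of_ne_zero hu)
  have h5 : 4 * u * (e / u) = 4 * (u * (e / u)) := by ring
  rw [h5]
  rcases le_total e T with h6 | h6
  · have : e ≤ T * f := h6.trans (Nat.le_mul_of_pos_right _ hf1)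
    rw [min_eq_left this]
    omega
  · omega

/-- the product of the primes dividing `n` -/
def rd (n : ℕ) : ℕ := ∏ p ∈ n.primeFactors, p

theorem rd_pos (n : ℕ) : 0 < rd n :=
  prod_pos fun _ hp => (Nat.prime_of_mem_primeFactors hp).pos

theorem rd_dvd {n m : ℕ} (h : ∀ p, p.Prime → p ∣ n → p ∣ m) : rd n ∣ m :=
  Finset.prod_primes_dvd m (fun _ hp => (Nat.prime_of_mem_primeFactors hp).prime)
    fun p hp => h p (Nat.prime_of_mem_primeFactors hp) (Nat.dvd_of_mem_primeFactors hp)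

theorem rd_dvd_self (n : ℕ) : rd n ∣ n := rd_dvd fun _ _ h => h

theorem split_pow {n q : ℕ} (hn : n ≠ 0) (hq : q ≠ 0) :
    ∃ a b : ℕ, n = a * b ^ q ∧ a ≤ rd n ^ q := by
  obtain ⟨a, ha⟩ := Nat.floorRoot_pow_dvd (n := q) (a := n)
  have h2 : Nat.floorRoot q n ≠ 0 := Nat.floorRoot_ne_zero.2 ⟨hq, hn⟩
  have ha0 : a ≠ 0 := by rintro rfl; exact hn (by simpa using ha)
  refine ⟨a, Nat.floorRoot q n, by rw [mul_comm]; exact ha, Nat.le_of_dvd (pow_pos (rd_pos n) _) ?_⟩
  rw [← Nat.factorization_prime_le_iff_dvd ha0 (pow_pos (rd_pos n) _).ne']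
  intro p hp
  have h3 := congrArg (fun k : ℕ => k.factorization p) ha
  simp only [Nat.factorization_mul (pow_ne_zero _ h2) ha0, Nat.factorization_pow,
    Nat.factorization_floorRoot, Finsupp.add_apply, Finsupp.smul_apply, smul_eq_mul,
    Finsupp.floorDiv_apply, Nat.floorDiv_eq_div] at h3
  rw [Nat.factorization_pow, Finsupp.smul_apply, smul_eq_mul]
  by_cases h0 : a.factorization p = 0
  · simp [h0]
  have h4 : p ∣ n := by
    rw [ha]; exact (Nat.dvd_of_factorization_pos h0).mul_left _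
  have h5 : 1 ≤ (rd n).factorization p :=
    hp.factorization_pos_of_dvd (rd_pos n).ne'
      (dvd_prod_of_mem _ (Nat.mem_primeFactors.2 ⟨hp, h4, hn⟩))
  have h6 := Nat.div_add_mod (n.factorization p) q
  have h7 := Nat.mod_lt (n.factorization p) (Nat.pos_of_ne_zero hq)
  have h8 : q ≤ q * (rd n).factorization p := Nat.le_mul_of_pos_right _ h5
  omega

theorem digits_zero (w : ℤ) (hw : 0 < w) : ∀ (n : ℕ) (x : Fin n → ℤ), (∀ b, |x b| < w) →
    ∑ b : Fin n, w ^ (b : ℕ) * x b = 0 → ∀ b, x b = 0 := by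
  intro n
  induction n with
  | zero => intro x _ _ b; exact b.elim0
  | succ n ih =>
    intro x hx h
    rw [Fin.sum_univ_succ] at h
    have h1 : ∑ b : Fin n, w ^ ((b.succ : Fin (n + 1)) : ℕ) * x b.succ =
        w * ∑ b : Fin n, w ^ (b : ℕ) * x b.succ := by
      rw [mul_sum]
      refine sum_congr rfl fun b _ => ?_
      rw [Fin.val_succ, pow_succ]; ring
    rw [h1] at h
    simp only [Fin.val_zero, pow_zero, one_mul] at h
    have h2 : x 0 = 0 := by
      refine Int.eq_zero_of_abs_lt_dvd (m := w) ⟨-∑ b : Fin n, w ^ (b : ℕ) * x b.succ, ?_⟩ (hx 0)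
      linarith
    rw [h2, zero_add] at h
    have h3 := ih (fun b => x b.succ) (fun b => hx _) ((mul_eq_zero.1 h).resolve_left hw.ne')
    intro b
    exact Fin.cases h2 h3 b

/-- two large prime power parts determine the number -/
theorem unique_of_heavy {c a b x y w w' : ℕ} (ha : a < c) (hb : b < c) (hab : a ≠ b)
    (h1 : x ∣ w + a) (h2 : y ∣ w + b) (h3 : x ∣ w' + a) (h4 : y ∣ w' + b)
    (h5 : (w' + a) ^ 9 ≤ x ^ 16) (h6 : (w' + b) ^ 9 ≤ y ^ 16) (hw : c.factorial ^ 8 < w') :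
    ¬ w < w' := by
  intro hlt
  have g1 : x ∣ w' - w := by
    have := Nat.dvd_sub h3 h1
    rwa [show w' + a - (w + a) = w' - w by omega] at this
  have g2 : y ∣ w' - w := by
    have := Nat.dvd_sub h4 h2
    rwa [show w' + b - (w + b) = w' - w by omega] at this
  have g3 : x * y ∣ c.factorial * (w' - w) := by
    rw [← Nat.gcd_mul_lcm]
    exact mul_dvd_mul (gcd_shift_dvd ha hb hab h1 h2) (Nat.lcm_dvd g1 g2)
  have g4 : x * y ≤ c.factorial * w' :=
    (Nat.le_of_dvd (Nat.mul_pos c.factorial_pos (by omega)) g3).trans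
      (Nat.mul_le_mul_left _ (by omega))
  have g5 : w' ^ 9 * w' ^ 9 ≤ x ^ 16 * y ^ 16 :=
    Nat.mul_le_mul ((Nat.pow_le_pow_left (by omega) 9).trans h5)
      ((Nat.pow_le_pow_left (by omega) 9).trans h6)
  have g6 : w' ^ 2 * w' ^ 16 ≤ (c.factorial ^ 8) ^ 2 * w' ^ 16 := by
    calc w' ^ 2 * w' ^ 16 = w' ^ 9 * w' ^ 9 := by ring
      _ ≤ (x * y) ^ 16 := by rw [mul_pow]; exact g5
      _ ≤ (c.factorial * w') ^ 16 := Nat.pow_le_pow_left g4 16
      _ = _ := by ring
  have g7 := Nat.le_of_mul_le_mul_right g6 (pow_pos (by omega) 16)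
  exact absurd (Nat.pow_lt_pow_left hw (two_ne_zero)) (not_lt.2 g7)

end Pool.Agent.P.MP_ed9a6e_lc.Sp
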