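import Pool.Agent.P.MP_ed9a6e_lc.Sp1
import Pool.Agent.P.MP_71e30e_nt.GAux

set_option autoImplicit false

/-! The auxiliary polynomial and the zero estimate. -/

namespace Pool.Agent.P.MP_ed9a6e_lc.Sp

open Finset Polynomial Pool.Agent.P.MP_71e30e_nt

theorem coeff_pow_bound (s : ℤ) (m : ℕ) (hm : 1 ≤ m) (hs : |s| ≤ m) {a D : ℕ} (ha : a ≤ D)
    (r : ℕ) : |((X + C s) ^ a : ℤ[X]).coeff r| ≤ (2 * m) ^ D := by
  rw [coeff_X_add_C_pow, abs_mul, abs_pow, Nat.abs_cast, mul_pow, mul_comm]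
  have h1 : (1 : ℤ) ≤ m := by exact_mod_cast hm
  have h2 : ((a.choose r : ℕ) : ℤ) ≤ 2 ^ D := by
    exact_mod_cast (Nat.choose_le_two_pow a r).trans (Nat.pow_le_pow_right two_pos ha)
  have h3 : |s| ^ (a - r) ≤ (m : ℤ) ^ D :=
    (pow_le_pow_left₀ (abs_nonneg _) hs _).trans (pow_le_pow_right₀ h1 (by omega))
  exact mul_le_mul h2 h3 (by positivity) (by positivity)

/-- the polynomial with given coefficients -/
noncomputable def pol (D : ℕ) (c : ℕ → ℤ) : ℤ[X] := ∑ a ∈ range D, C (c a) * X ^ a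

theorem pol_coeff {D : ℕ} {c : ℕ → ℤ} (h : ∀ a, D ≤ a → c a = 0) (n : ℕ) :
    (pol D c).coeff n = c n := by
  simp only [pol, finsetSum_coeff, coeff_C_mul, coeff_X_pow, mul_ite, mul_one, mul_zero]
  rw [sum_ite_eq]
  split_ifs with h1
  · rfl
  · exact (h n (by simpa using h1)).symm

theorem pol_natDegree (D : ℕ) (c : ℕ → ℤ) : (pol D c).natDegree ≤ D :=
  natDegree_sum_le_of_forall_le _ _ fun _ ha =>
    (natDegree_C_mul_X_pow_le _ _).trans (mem_range.1 ha).le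

theorem taylor_pol (D : ℕ) (c : ℕ → ℤ) (s : ℤ) (r : ℕ) :
    (taylor s (pol D c)).coeff r = ∑ a ∈ range D, c a * ((X + C s) ^ a : ℤ[X]).coeff r := by
  simp only [pol, map_sum, finsetSum_coeff, taylor_mul, taylor_C, taylor_X_pow, coeff_C_mul]

theorem taylor_comb {n : ℕ} (x : Fin n → ℤ) (A : Fin n → ℤ[X]) (s : ℤ) (r : ℕ) :
    (taylor s (∑ b, C (x b) * A b)).coeff r = ∑ b, x b * (taylor s (A b)).coeff r := by
  simp only [map_sum, finsetSum_coeff, taylor_mul, taylor_C, coeff_C_mul]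

theorem exists_aux (c n D T : ℕ) (J : Finset ℕ) (hc : 1 ≤ c) (hJ : ∀ i ∈ J, i < c)
    (h0 : 0 < J.card * T) (hE : 2 * (J.card * T) ≤ n * D) :
    ∃ a : Fin n → ℕ → ℤ, (∃ b m, a b m ≠ 0) ∧ (∀ b m, D ≤ m → a b m = 0) ∧
      (∀ b m, |a b m| ≤ (n * D * (c ^ n * (2 * c) ^ D) : ℕ)) ∧
      ∀ i ∈ J, (X + C (i : ℤ)) ^ T ∣ ∑ b : Fin n, C ((-(i : ℤ)) ^ (b : ℕ)) * pol D (a b) := by
  classical
  have hc1 : (1 : ℤ) ≤ c := by exact_mod_cast hc
  obtain ⟨a, h1, h2, h3, h4⟩ := siegel_fam (ι := Fin n) (ρ := J × Fin T) (fun _ => D)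
    (fun r b m => (-((r.1 : ℕ) : ℤ)) ^ (b : ℕ) * ((X + C (-((r.1 : ℕ) : ℤ))) ^ m : ℤ[X]).coeff r.2)
    (B := ((c ^ n * (2 * c) ^ D : ℕ) : ℝ))
    (by exact_mod_cast Nat.one_le_iff_ne_zero.2 (by positivity))
    (fun r b m hm => by
      have hr : |(-((r.1 : ℕ) : ℤ))| ≤ c := by
        rw [abs_neg, Nat.abs_cast]; exact_mod_cast (hJ _ r.1.2).le
      have g1 := coeff_pow_bound _ c hc hr hm.le r.2
      have g2 : |(-((r.1 : ℕ) : ℤ)) ^ (b : ℕ)| ≤ (c : ℤ) ^ n := by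
        rw [abs_pow]
        exact (pow_le_pow_left₀ (abs_nonneg _) hr _).trans (pow_le_pow_right₀ hc1 b.2.le)
      have g3 := mul_le_mul g2 g1 (abs_nonneg _) (by positivity)
      rw [← abs_mul] at g3
      exact_mod_cast g3)
    1 (by simpa using h0) (by simpa using hE)
  refine ⟨a, h1, h2, fun b m => ?_, fun i hi => ?_⟩
  · have := h3 b m
    simp only [sum_const, card_univ, Fintype.card_fin, smul_eq_mul, pow_one] at this
    exact_mod_cast this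
  · have g : X ^ T ∣ taylor (-(i : ℤ)) (∑ b : Fin n, C ((-(i : ℤ)) ^ (b : ℕ)) * pol D (a b)) := by
      rw [X_pow_dvd_iff]
      intro r hr
      have := h4 (⟨i, hi⟩, ⟨r, hr⟩)
      rw [sum_sigma] at this
      rw [taylor_comb, ← this]
      refine sum_congr rfl fun b _ => ?_
      rw [taylor_pol, mul_sum]
      exact sum_congr rfl fun m _ => by ring
    obtain ⟨S, hS⟩ := g
    have g2 := congrArg (taylor (i : ℤ)) hS
    rw [taylor_taylor, add_neg_cancel, taylor_zero, taylor_mul, taylor_X_pow] at g2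
    exact ⟨_, g2⟩

theorem pow_dvd_taylor {G : ℤ[X]} {i z : ℤ} {T μ : ℕ} (h : (X + C i) ^ (2 * T) ∣ G) (hμ : μ ≤ T) :
    (z + i) ^ T ∣ (taylor z G).coeff μ := by
  obtain ⟨S, rfl⟩ := h
  rw [taylor_mul, taylor_pow, map_add, taylor_X, taylor_C, add_assoc, ← C_add, coeff_mul]
  refine dvd_sum fun p hp => Dvd.dvd.mul_right ?_ _
  rw [coeff_X_add_C_pow]
  have := mem_antidiagonal.1 hp
  exact (pow_dvd_pow _ (by omega)).mul_right _

theorem exists_coeff_ne {n D T e z : ℕ} (a : Fin n → ℕ → ℤ) {H K w : ℕ} (h1 : ∃ b m, a b m ≠ 0)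
    (h2 : ∀ b m, D ≤ m → a b m = 0) (h3 : ∀ b m, |a b m| ≤ H) (hD : 1 ≤ D) (hH : 1 ≤ H)
    (hw : H < w) (hK : 24 * D ^ 2 * H ≤ K) (he : e + n = T) (hz : K ^ 2 ^ n < z ^ e) :
    ∃ μ < T, (taylor (z : ℤ) (∑ b : Fin n, C ((w : ℤ) ^ (b : ℕ)) * pol D (a b))).coeff μ ≠ 0 := by
  by_contra hcon
  push Not at hcon
  set F : ℤ[X] := ∑ b : Fin n, C ((w : ℤ) ^ (b : ℕ)) * pol D (a b) with hF
  have hF0 : F ≠ 0 := by
    intro h0
    obtain ⟨b, m, hb⟩ := h1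
    refine hb (digits_zero w (by exact_mod_cast (by omega : 0 < w)) n (fun b => a b m)
      (fun b => (h3 b m).trans_lt (by exact_mod_cast hw)) ?_ b)
    have := congrArg (fun P : ℤ[X] => P.coeff m) h0
    simpa only [hF, finsetSum_coeff, coeff_C_mul, pol_coeff (h2 _), coeff_zero] using this
  have hmap : F.map (Int.castRingHom ℂ) =
      ∑ b : Fin n, C ((w : ℂ) ^ (b : ℕ)) * (pol D (a b)).map (Int.castRingHom ℂ) := by
    simp [hF, Polynomial.map_sum]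
  obtain ⟨S, hS⟩ : X ^ T ∣ taylor (z : ℤ) F := X_pow_dvd_iff.2 hcon
  have g2 := congrArg (taylor (-(z : ℤ))) hS
  rw [taylor_taylor, neg_add_cancel, taylor_zero, taylor_mul, taylor_X_pow] at g2
  have g3 : (X - C (z : ℂ)) ^ (e + n) ∣ F.map (Int.castRingHom ℂ) := by
    rw [he, g2, Polynomial.map_mul]
    refine Dvd.dvd.mul_right (dvd_of_eq ?_) _
    simp [sub_eq_add_neg]
  have g4 := zero_est (z : ℂ) (fun b : Fin n => (w : ℂ) ^ (b : ℕ)) e n univ (fun b => pol D (a b))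
    D H K (by simp) hD (by exact_mod_cast hH) (fun b _ => pol_natDegree _ _)
    (fun b _ m => by rw [pol_coeff (h2 b)]; exact_mod_cast h3 b m) (by exact_mod_cast hK)
    (by rw [← hmap]; exact (Polynomial.map_ne_zero_iff Int.cast_injective).2 hF0)
    (by rw [← hmap]; exact g3)
  rw [Complex.norm_natCast] at g4
  exact absurd hz (not_lt.2 (by exact_mod_cast g4))

theorem value_bound {n D z : ℕ} (a : Fin n → ℕ → ℤ) {H w : ℕ} (h3 : ∀ b m, |a b m| ≤ H)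
    (hz : 1 ≤ z) (hw : 1 ≤ w) (μ : ℕ) :
    |(taylor (z : ℤ) (∑ b : Fin n, C ((w : ℤ) ^ (b : ℕ)) * pol D (a b))).coeff μ| ≤
      (n * (w ^ n * (D * (H * (2 * z) ^ D))) : ℕ) := by
  rw [taylor_comb]
  refine (abs_sum_le_sum_abs _ _).trans ?_
  have hw1 : (1 : ℤ) ≤ w := by exact_mod_cast hw
  have h : ∀ b : Fin n, |(w : ℤ) ^ (b : ℕ) * (taylor (z : ℤ) (pol D (a b))).coeff μ| ≤
      (w : ℤ) ^ n * (D * (H * (2 * z) ^ D)) := by
    intro b
    rw [abs_mul, abs_of_nonneg (by positivity : (0 : ℤ) ≤ (w : ℤ) ^ (b : ℕ))]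
    refine mul_le_mul (pow_le_pow_right₀ hw1 b.2.le) ?_ (abs_nonneg _) (by positivity)
    rw [taylor_pol]
    refine (abs_sum_le_sum_abs _ _).trans ?_
    refine (sum_le_card_nsmul _ _ ((H : ℤ) * (2 * z) ^ D) fun m hm => ?_).trans (by simp)
    rw [abs_mul]
    exact mul_le_mul (h3 b m) (coeff_pow_bound _ z hz (by simp) (mem_range.1 hm).le μ)
      (abs_nonneg _) (by positivity)
  refine (sum_le_card_nsmul _ _ _ fun b _ => h b).trans (le_of_eq ?_)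
  simp

theorem gcd_dvd_value {n D T z w i μ : ℕ} (a : Fin n → ℕ → ℤ)
    (h : (X + C (i : ℤ)) ^ (2 * T) ∣ ∑ b : Fin n, C ((-(i : ℤ)) ^ (b : ℕ)) * pol D (a b))
    (hμ : μ ≤ T) :
    Nat.gcd (w + i) ((z + i) ^ T) ∣
      ((taylor (z : ℤ) (∑ b : Fin n, C ((w : ℤ) ^ (b : ℕ)) * pol D (a b))).coeff μ).natAbs := by
  rw [← Int.natCast_dvd]
  have h1 := pow_dvd_taylor (z := z) h hμ
  have h2 : ((w : ℤ) + i) ∣
      (taylor (z : ℤ) (∑ b : Fin n, C ((w : ℤ) ^ (b : ℕ)) * pol D (a b))).coeff μ -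
      (taylor (z : ℤ) (∑ b : Fin n, C ((-(i : ℤ)) ^ (b : ℕ)) * pol D (a b))).coeff μ := by
    rw [taylor_comb, taylor_comb, ← sum_sub_distrib]
    refine dvd_sum fun b _ => ?_
    rw [← sub_mul]
    have := sub_dvd_pow_sub_pow (w : ℤ) (-(i : ℤ)) b
    rw [sub_neg_eq_add] at this
    exact this.mul_right _
  have h3 : ((Nat.gcd (w + i) ((z + i) ^ T) : ℕ) : ℤ) ∣ (w : ℤ) + i := by
    exact_mod_cast Nat.gcd_dvd_left _ _
  have h4 : ((Nat.gcd (w + i) ((z + i) ^ T) : ℕ) : ℤ) ∣ ((z : ℤ) + i) ^ T := by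
    exact_mod_cast Nat.gcd_dvd_right _ _
  have := dvd_add (h3.trans h2) (h4.trans h1)
  rwa [sub_add_cancel] at this

end Pool.Agent.P.MP_ed9a6e_lc.Sp
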