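import Pool.Agent.P.MP_ed9a6e_lc.Sp2

set_option autoImplicit false

/-! The Thue-Siegel step with the smaller number as anchor. -/

namespace Pool.Agent.P.MP_ed9a6e_lc.Sp

open Finset Polynomial

theorem le_pow_T {a T : ℕ} (hT : 1 ≤ T) : a ≤ a ^ T := Nat.le_self_pow (by omega) a

theorem lin_le {a T : ℕ} (hT : 1 ≤ T) : a * T ≤ (a * 2) ^ T := by
  rw [mul_pow]
  exact Nat.mul_le_mul (le_pow_T hT) Nat.lt_two_pow_self.le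

theorem few_light (c ρ : ℕ) (hc : 1 ≤ c) (hρ : 1 ≤ ρ) : ∃ z0 : ℕ, ∀ (J : Finset ℕ) (z w T : ℕ),
    J.card = 420 * ρ → (∀ i ∈ J, i < c) → z0 ≤ z → 40 * ρ ≤ T → z ^ T ≤ w ^ ρ →
    ¬ ∀ i ∈ J, w + i < Nat.gcd (w + i) ((z + i) ^ T) ^ 4 := by
  obtain ⟨Q1, hQ1⟩ : ∃ Q1, Q1 = (20 * ρ * 84 * 2) * (c ^ (20 * ρ) * (2 * c) ^ 84) := ⟨_, rfl⟩
  obtain ⟨Q2, hQ2⟩ : ∃ Q2, Q2 = 24 * (84 * 2) ^ 2 * Q1 := ⟨_, rfl⟩
  obtain ⟨G, hG⟩ : ∃ G, G = c.factorial ^ ((420 * ρ) ^ 2) := ⟨_, rfl⟩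
  obtain ⟨Q4, hQ4⟩ : ∃ Q4, Q4 = G * ((20 * ρ * 84 * 2) * (Q1 * 2 ^ 84)) := ⟨_, rfl⟩
  refine ⟨(Q2 ^ 2 ^ (20 * ρ)) ^ 2 + Q4 ^ ρ + 1, fun J z w T hJ hJc hz hT hzw hl => ?_⟩
  have hT1 : 1 ≤ T := by omega
  have hz1 : 1 ≤ z := by omega
  have hG1 : 1 ≤ G := by rw [hG]; exact Nat.one_le_pow _ _ c.factorial_pos
  obtain ⟨H, hH⟩ : ∃ H, H = 20 * ρ * (84 * T) * (c ^ (20 * ρ) * (2 * c) ^ (84 * T)) := ⟨_, rfl⟩
  have hH1 : 1 ≤ H := by rw [hH]; exact Nat.one_le_iff_ne_zero.2 (by positivity)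
  have hHQ : H ≤ Q1 ^ T := by
    rw [hH, hQ1, mul_pow (20 * ρ * 84 * 2), mul_pow (c ^ (20 * ρ)), ← mul_assoc (20 * ρ),
      pow_mul (2 * c)]
    exact Nat.mul_le_mul (lin_le hT1) (Nat.mul_le_mul_right _ (le_pow_T hT1))
  have hK : 24 * (84 * T) ^ 2 * H ≤ Q2 ^ T := by
    rw [hQ2, mul_pow (24 * _), mul_pow 24, ← pow_mul, mul_comm 2 T, pow_mul]
    exact Nat.mul_le_mul (Nat.mul_le_mul (le_pow_T hT1) (Nat.pow_le_pow_left (lin_le hT1) 2)) hHQ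
  have hQw : Q4 ^ T ≤ w := by
    refine (Nat.pow_le_pow_iff_left (n := ρ) (by omega)).1 (le_trans ?_ hzw)
    rw [← pow_mul, mul_comm, pow_mul]
    exact Nat.pow_le_pow_left (by omega) _
  have hjunk : G * (20 * ρ * (84 * T) * (H * 2 ^ (84 * T))) ≤ w := by
    refine le_trans ?_ hQw
    rw [hQ4, mul_pow G, mul_pow (_ * 2), mul_pow Q1, ← mul_assoc (20 * ρ), pow_mul 2]
    exact Nat.mul_le_mul (le_pow_T hT1) (Nat.mul_le_mul (lin_le hT1) (Nat.mul_le_mul_right _ hHQ))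
  have hHw : H < w := by
    have h1 : 2 ≤ 2 ^ (84 * T) := Nat.le_self_pow (by omega) 2
    have h2 : 1 ≤ 20 * ρ * (84 * T) := Nat.one_le_iff_ne_zero.2 (by positivity)
    have h3 : 1 * (1 * (H * 2)) ≤ G * (20 * ρ * (84 * T) * (H * 2 ^ (84 * T))) :=
      Nat.mul_le_mul hG1 (Nat.mul_le_mul h2 (Nat.mul_le_mul_left _ h1))
    omega
  have hw1 : 1 ≤ w := by omega
  obtain ⟨a, h1, h2, h3, h4⟩ := exists_aux c (20 * ρ) (84 * T) (2 * T) J hc hJc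
    (by rw [hJ]; positivity) (by rw [hJ]; exact le_of_eq (by ring))
  rw [← hH] at h3
  have hze : (Q2 ^ T) ^ 2 ^ (20 * ρ) < z ^ (T - 20 * ρ) := by
    refine lt_of_pow_lt_pow_left₀ 2 (by positivity) ?_
    calc ((Q2 ^ T) ^ 2 ^ (20 * ρ)) ^ 2 = ((Q2 ^ 2 ^ (20 * ρ)) ^ 2) ^ T := by
          simp only [← pow_mul]; congr 1; ring
      _ < z ^ T := Nat.pow_lt_pow_left (by omega) (by omega)
      _ ≤ (z ^ (T - 20 * ρ)) ^ 2 := by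
          rw [← pow_mul]; exact Nat.pow_le_pow_right hz1 (by omega)
  obtain ⟨μ, hμ, hV⟩ := exists_coeff_ne (T := T) (e := T - 20 * ρ) (z := z) a h1 h2 h3
    (by omega) hH1 hHw hK (by omega) hze
  have hb := value_bound (D := 84 * T) a h3 hz1 hw1 μ
  set V := (taylor (z : ℤ)
    (∑ b : Fin (20 * ρ), C ((w : ℤ) ^ (b : ℕ)) * pol (84 * T) (a b))).coeff μ with hVdef
  have hb2 : V.natAbs ≤ 20 * ρ * (w ^ (20 * ρ) * (84 * T * (H * (2 * z) ^ (84 * T)))) := by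
    rw [Int.abs_eq_natAbs] at hb
    exact_mod_cast hb
  have hd := prod_dvd J (fun i => Nat.gcd (w + i) ((z + i) ^ T)) V.natAbs c.factorial
    (fun i hi => gcd_dvd_value a (h4 i hi) hμ.le)
    (fun i hi j hj hij => gcd_shift_dvd (hJc i hi) (hJc j hj) hij (Nat.gcd_dvd_left _ _)
      (Nat.gcd_dvd_left _ _))
  rw [hJ, ← hG] at hd
  have h5 := Nat.le_of_dvd (Nat.mul_pos hG1 (Int.natAbs_pos.2 hV)) hd
  have h6 : ∏ i ∈ J, Nat.gcd (w + i) ((z + i) ^ T) ≤ w ^ (1 + 104 * ρ) := by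
    calc _ ≤ G * (20 * ρ * (w ^ (20 * ρ) * (84 * T * (H * (2 * z) ^ (84 * T))))) :=
          h5.trans (Nat.mul_le_mul_left _ hb2)
      _ = G * (20 * ρ * (84 * T) * (H * 2 ^ (84 * T))) * (w ^ (20 * ρ) * (z ^ T) ^ 84) := by
          rw [mul_pow 2 z, ← pow_mul z, mul_comm T 84]; ring
      _ ≤ w * (w ^ (20 * ρ) * (w ^ ρ) ^ 84) :=
          Nat.mul_le_mul hjunk (Nat.mul_le_mul_left _ (Nat.pow_le_pow_left hzw _))
      _ = _ := by ring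
  have h7 : ∏ _i ∈ J, w < ∏ i ∈ J, Nat.gcd (w + i) ((z + i) ^ T) ^ 4 :=
    prod_lt_prod_of_nonempty (fun _ _ => hw1) (fun i hi => lt_of_le_of_lt (by omega) (hl i hi))
      (card_pos.1 (by omega))
  rw [prod_const, hJ, prod_pow] at h7
  have h8 := h7.trans_le (Nat.pow_le_pow_left h6 4)
  rw [← pow_mul] at h8
  exact absurd h8 (not_lt.2 (Nat.pow_le_pow_right hw1 (by omega)))

end Pool.Agent.P.MP_ed9a6e_lc.Sp
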