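import Pool.Agent.P.MP_ed9a6e_lc.Sp3
import Pool.Agent.P.MP_ed9a6e_lc.Main

set_option autoImplicit false

/-! Structure of pairs with the same prime divisors at all shifts. -/

namespace Pool.Agent.P.MP_ed9a6e_lc.Sp

open Finset

/-- two different positive numbers with the same prime divisors at all shifts in `I` -/
def Pair (I : Finset ℕ) (z w : ℕ) : Prop :=
  1 ≤ z ∧ 1 ≤ w ∧ z ≠ w ∧ ∀ i ∈ I, ∀ p : ℕ, p.Prime → (p ∣ z + i ↔ p ∣ w + i)

theorem add_le_pow {R c q : ℕ} (hq : 1 ≤ q) : R ^ q + c ≤ (R + c) ^ q :=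
  (Nat.add_le_add_left (le_pow_T hq) _).trans
    (pow_add_pow_le (Nat.zero_le _) (Nat.zero_le _) (by omega))

theorem small_struct {I : Finset ℕ} {c q R z w : ℕ} (hq : 1 ≤ q) (hI : 40 * q ^ 2 ≤ I.card)
    (hc : ∀ i ∈ I, i < c) (hR : 1 ≤ R) (hz : z ≤ R ^ q) (h : Pair I z w) (hw : w < z ^ 40) :
    ∃ i ∈ I, ∃ a b : ℕ, z + i = a * b ^ q ∧ a ≤ (c.factorial ^ (I.card ^ 2)) ^ q * R ∧
      b ≤ R + c := by
  obtain ⟨hz1, hw1, hne, hs⟩ := h
  obtain ⟨G, hG⟩ : ∃ G, G = c.factorial ^ (I.card ^ 2) := ⟨_, rfl⟩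
  have hG1 : 1 ≤ G := by rw [hG]; exact Nat.one_le_pow _ _ c.factorial_pos
  have hq2 : 1 ≤ q ^ 2 := Nat.one_le_pow _ _ hq
  have hI0 : 1 ≤ I.card := by omega
  have hzz : z ≤ z ^ 40 := le_pow_T (by norm_num)
  have hd : ∀ i ∈ I, rd (z + i) ∣ Nat.dist z w := by
    intro i hi
    refine rd_dvd fun p hp h1 => ?_
    have h2 := (hs i hi p hp).1 h1
    unfold Nat.dist
    refine dvd_add ?_ ?_
    · have := Nat.dvd_sub h1 h2
      rwa [show z + i - (w + i) = z - w by omega] at this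
    · have := Nat.dvd_sub h2 h1
      rwa [show w + i - (z + i) = w - z by omega] at this
  have h1 := prod_dvd I (fun i => rd (z + i)) (Nat.dist z w) c.factorial hd
    (fun i hi j hj hij => gcd_shift_dvd (hc i hi) (hc j hj) hij (rd_dvd_self _) (rd_dvd_self _))
  rw [← hG] at h1 ⊢
  have h2 : 0 < Nat.dist z w := by unfold Nat.dist; omega
  have h3 : Nat.dist z w ≤ (R ^ q) ^ 40 :=
    le_trans (by unfold Nat.dist; omega) (Nat.pow_le_pow_left hz 40)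
  have h4 := (Nat.le_of_dvd (Nat.mul_pos hG1 h2) h1).trans (Nat.mul_le_mul_left G h3)
  obtain ⟨i, hi, hmin⟩ := exists_min_image I (fun i => rd (z + i)) (card_pos.1 hI0)
  have h5 : rd (z + i) ^ I.card ≤ G * (R ^ q) ^ 40 :=
    (pow_card_le_prod I _ _ hmin).trans h4
  obtain ⟨a, b, hab, ha⟩ := split_pow (n := z + i) (q := q) (by omega) (by omega)
  refine ⟨i, hi, a, b, hab, ?_, ?_⟩
  · refine (Nat.pow_le_pow_iff_left (n := I.card) (by omega)).1 ?_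
    calc a ^ I.card ≤ (rd (z + i) ^ q) ^ I.card := Nat.pow_le_pow_left ha _
      _ = (rd (z + i) ^ I.card) ^ q := by rw [← pow_mul, ← pow_mul, mul_comm]
      _ ≤ (G * (R ^ q) ^ 40) ^ q := Nat.pow_le_pow_left h5 _
      _ = G ^ q * R ^ (40 * q ^ 2) := by rw [mul_pow, ← pow_mul, ← pow_mul]; congr 2; ring
      _ ≤ (G ^ q) ^ I.card * R ^ I.card :=
          Nat.mul_le_mul (le_pow_T hI0) (Nat.pow_le_pow_right hR hI)
      _ = _ := (mul_pow _ _ _).symm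
  · refine (Nat.pow_le_pow_iff_left (n := q) (by omega)).1 ?_
    have ha1 : 1 ≤ a := Nat.pos_of_ne_zero (by rintro rfl; omega)
    have h6 : b ^ q ≤ a * b ^ q := Nat.le_mul_of_pos_left _ ha1
    have h7 := hc i hi
    have h8 := add_le_pow (R := R) (c := c) hq
    omega

theorem heavy_one {m s u T : ℕ} (hm : m ≠ 0) (hs : s ≠ 0) (hu : u ≠ 0) (hT : 4 * u ≤ T)
    (h : ∀ p, p.Prime → p ∣ m → p ∣ s) (hl : ¬ m < Nat.gcd m (s ^ T) ^ 4) :
    m ^ 9 ≤ (Nat.floorRoot u m ^ u) ^ 16 := by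
  have h2 : Nat.floorRoot u m ≠ 0 := Nat.floorRoot_ne_zero.2 ⟨hu, hm⟩
  have h1 : 0 < Nat.gcd m (s ^ T) := Nat.gcd_pos_of_pos_left _ (Nat.pos_of_ne_zero hm)
  have h3 := Nat.le_of_dvd (by positivity) (cube_dvd hm hs hu hT h)
  refine Nat.le_of_mul_le_mul_left ?_ (show 0 < m ^ 3 by positivity)
  calc m ^ 3 * m ^ 9 = (m ^ 3) ^ 4 := by ring
    _ ≤ (Nat.gcd m (s ^ T) ^ 3 * Nat.floorRoot u m ^ (4 * u)) ^ 4 := Nat.pow_le_pow_left h3 4
    _ = (Nat.gcd m (s ^ T) ^ 4) ^ 3 * (Nat.floorRoot u m ^ u) ^ 16 := by ring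
    _ ≤ _ := Nat.mul_le_mul_right _ (Nat.pow_le_pow_left (not_lt.1 hl) 3)

/-- the data that determine the larger member of a pair -/
def Hv (w a b t x y : ℕ) : Prop :=
  a ≠ b ∧ x ^ 2 ^ t ∣ w + a ∧ y ^ 2 ^ t ∣ w + b ∧ (w + a) ^ 9 ≤ (x ^ 2 ^ t) ^ 16 ∧
    (w + b) ^ 9 ≤ (y ^ 2 ^ t) ^ 16

theorem heavy_struct (c q : ℕ) (hc : 1 ≤ c) (hq : 1 ≤ q) : ∃ z0 : ℕ, ∀ (I : Finset ℕ) (R z w : ℕ),
    6720 * q + 1 ≤ I.card → (∀ i ∈ I, i < c) → z ≤ R ^ q → z0 ≤ z → Pair I z w → z ^ 40 ≤ w →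
    ∃ a ∈ I, ∃ b ∈ I, ∃ t x y : ℕ, Hv w a b t x y ∧ x ≤ R ∧ y ≤ R ∧
      2 ^ t ≤ 16 * q * (Nat.log 2 w + 1) := by
  classical
  obtain ⟨z0, hz0⟩ := few_light c (16 * q) hc (by omega)
  refine ⟨z0 + c + 2, fun I R z w hI hIc hzR hz h hw => ?_⟩
  obtain ⟨hz1, hw1, -, hs⟩ := h
  have hz2 : 1 < z := by omega
  have hzw : z ≤ w := (le_pow_T (by norm_num)).trans hw
  obtain ⟨T, hT⟩ : ∃ T, T = Nat.log z (w ^ (16 * q)) := ⟨_, rfl⟩
  have hw0 : w ^ (16 * q) ≠ 0 := by positivity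
  have hT1 : z ^ T ≤ w ^ (16 * q) := by rw [hT]; exact Nat.pow_log_le_self z hw0
  have hT2 : w ^ (16 * q) < z ^ (T + 1) := by rw [hT]; exact Nat.lt_pow_succ_log_self hz2 _
  have hT3 : 40 * (16 * q) ≤ T := by
    have : z ^ (40 * (16 * q)) < z ^ (T + 1) := by
      rw [pow_mul]; exact (Nat.pow_le_pow_left hw _).trans_lt hT2
    have := (Nat.pow_lt_pow_iff_right hz2).1 this
    omega
  obtain ⟨t, ht⟩ : ∃ t, t = Nat.log 2 (T / 4) := ⟨_, rfl⟩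
  have ht1 : 2 ^ t ≤ T / 4 := by rw [ht]; exact Nat.pow_log_le_self 2 (by omega)
  have ht2 : T / 4 < 2 ^ (t + 1) := by rw [ht]; exact Nat.lt_pow_succ_log_self one_lt_two _
  rw [pow_succ] at ht2
  have hu0 : 2 ^ t ≠ 0 := by positivity
  have hT4 : T ≤ 16 * q * (Nat.log 2 w + 1) := by
    have h1 : 2 ^ T ≤ 2 ^ (16 * q * (Nat.log 2 w + 1)) := by
      calc 2 ^ T ≤ z ^ T := Nat.pow_le_pow_left hz2 _
        _ ≤ w ^ (16 * q) := hT1
        _ ≤ (2 ^ (Nat.log 2 w + 1)) ^ (16 * q) :=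
            Nat.pow_le_pow_left (Nat.lt_pow_succ_log_self one_lt_two _).le _
        _ = _ := by rw [← pow_mul, mul_comm]
    exact (Nat.pow_le_pow_iff_right one_lt_two).1 h1
  set L := I.filter fun i => w + i < Nat.gcd (w + i) ((z + i) ^ T) ^ 4 with hL
  have hL1 : L.card < 420 * (16 * q) := by
    by_contra hcon
    obtain ⟨J, hJ, hJc⟩ := exists_subset_card_eq (not_lt.1 hcon)
    exact hz0 J z w T hJc (fun i hi => hIc i (mem_filter.1 (hJ hi)).1) (by omega) hT3 hT1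
      fun i hi => (mem_filter.1 (hJ hi)).2
  have hL2 := card_filter_add_card_filter_not (s := I)
    (fun i => w + i < Nat.gcd (w + i) ((z + i) ^ T) ^ 4)
  rw [← hL] at hL2
  obtain ⟨a, ha, b, hb, hab⟩ := one_lt_card.1 (show 1 < (I.filter fun i =>
    ¬ w + i < Nat.gcd (w + i) ((z + i) ^ T) ^ 4).card by omega)
  rw [mem_filter] at ha hb
  have key : ∀ i ∈ I, Nat.floorRoot (2 ^ t) (w + i) ≤ R := by
    intro i hi
    have g1 : Nat.floorRoot (2 ^ t) (w + i) ^ 2 ^ t ≤ w + i :=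
      Nat.le_of_dvd (by omega) Nat.floorRoot_pow_dvd
    have g2 : w + i ≤ w ^ 2 := by
      have := hIc i hi
      have : 2 * w ≤ w * w := Nat.mul_le_mul_right _ (by omega)
      rw [sq]; omega
    refine (Nat.pow_le_pow_iff_left (n := 2 ^ t * (16 * q)) (by positivity)).1 ?_
    calc Nat.floorRoot (2 ^ t) (w + i) ^ (2 ^ t * (16 * q))
        ≤ (w ^ 2) ^ (16 * q) := by rw [pow_mul]; exact Nat.pow_le_pow_left (g1.trans g2) _
      _ = (w ^ (16 * q)) ^ 2 := by rw [← pow_mul, ← pow_mul, mul_comm]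
      _ ≤ (z ^ (8 * 2 ^ t)) ^ 2 :=
          Nat.pow_le_pow_left (hT2.le.trans (Nat.pow_le_pow_right hz1 (by omega))) _
      _ ≤ ((R ^ q) ^ (8 * 2 ^ t)) ^ 2 := Nat.pow_le_pow_left (Nat.pow_le_pow_left hzR _) _
      _ = _ := by simp only [← pow_mul]; congr 1; ring
  refine ⟨a, ha.1, b, hb.1, t, _, _, ⟨hab, Nat.floorRoot_pow_dvd, Nat.floorRoot_pow_dvd,
    heavy_one (by omega) (by omega) hu0 (by omega) (fun p hp => (hs a ha.1 p hp).2) ha.2,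
    heavy_one (by omega) (by omega) hu0 (by omega) (fun p hp => (hs b hb.1 p hp).2) hb.2⟩,
    key a ha.1, key b hb.1, by omega⟩

theorem pow_six_le (n : ℕ) : n ^ 6 ≤ 6 ^ 6 * 2 ^ n := by
  have h1 : n / 6 + 1 ≤ 2 ^ (n / 6) := Nat.lt_two_pow_self
  calc n ^ 6 ≤ (6 * 2 ^ (n / 6)) ^ 6 := Nat.pow_le_pow_left (by omega) 6
    _ = 6 ^ 6 * 2 ^ (n / 6 * 6) := by rw [mul_pow, ← pow_mul]
    _ ≤ _ := Nat.mul_le_mul_left _ (Nat.pow_le_pow_right two_pos (Nat.div_mul_le_self n 6))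

theorem scale_bound (c q : ℕ) (hq : 1 ≤ q) : ∃ C : ℕ, ∀ (I : Finset ℕ) (a R z w t : ℕ),
    a ∈ I → a + 1 ∈ I → (∀ i ∈ I, i < c) → 1 ≤ R → z ≤ R ^ q → Pair I z w →
    2 ^ t ≤ 16 * q * (Nat.log 2 w + 1) → t < C * R := by
  refine ⟨16 * q + 3 + 1296 * 81 * 39 * q ^ 6 * (6 ^ 6 * (2 * (1 + c))),
    fun I a R z w t ha ha1 hc hR hz h ht => ?_⟩
  obtain ⟨hz1, hw1, -, hs⟩ := h
  obtain ⟨n, hn⟩ : ∃ n, n = Nat.log 2 (R + c) + 1 := ⟨_, rfl⟩
  have hn1 : R + c < 2 ^ n := by rw [hn]; exact Nat.lt_pow_succ_log_self one_lt_two _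
  have hn2 : 2 ^ n ≤ 2 * (R + c) := by
    rw [hn, pow_succ, mul_comm]
    exact Nat.mul_le_mul_left _ (Nat.pow_log_le_self 2 (by omega))
  obtain ⟨m, hm⟩ : ∃ m, m = n * q := ⟨_, rfl⟩
  have hm1 : 1 ≤ m := by rw [hm]; exact Nat.mul_pos (by omega) hq
  have hzm : z + c ≤ 2 ^ m := by
    rw [hm, pow_mul]
    exact (Nat.add_le_add_right hz c).trans ((add_le_pow hq).trans (Nat.pow_le_pow_left hn1.le _))
  have hac := hc _ ha1
  have hsub : ((w + a) * (w + a + 1)).primeFactors ⊆ ((z + a) * (z + a + 1)).primeFactors := by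
    intro p hp
    obtain ⟨hp1, hp2, -⟩ := Nat.mem_primeFactors.1 hp
    refine Nat.mem_primeFactors.2 ⟨hp1, ?_, by positivity⟩
    rcases (Nat.Prime.dvd_mul hp1).1 hp2 with h1 | h1
    · exact ((hs a ha p hp1).2 h1).mul_right _
    · exact ((hs (a + 1) ha1 p hp1).2 h1).mul_left _
  have hcard : ((w + a) * (w + a + 1)).primeFactors.card ≤ 2 * m := by
    refine (card_le_card hsub).trans (card_primeFactors_le ?_)
    rw [two_mul, pow_add]
    exact Nat.mul_le_mul (by omega) (by omega)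
  have hx : m ≤ 1296 * (2 * m + 1) ^ 4 :=
    le_trans (le_trans (by omega) (le_pow_T (a := 2 * m + 1) (T := 4) (by norm_num))) (by omega)
  have hB := Pool.Agent.Lib.Baker.log_succ_le (z := w + a) (s := 2 * m)
    (x := 1296 * (2 * m + 1) ^ 4) (by omega) hcard (fun p hp => by
      obtain ⟨hp1, hp2, -⟩ := Nat.mem_primeFactors.1 (hsub hp)
      have h1 : p ≤ 2 ^ m := by
        rcases (Nat.Prime.dvd_mul hp1).1 hp2 with h1 | h1
        · exact (Nat.le_of_dvd (by omega) h1).trans (by omega)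
        · exact (Nat.le_of_dvd (by omega) h1).trans (by omega)
      have h2 : Real.log p ≤ Real.log ((2 : ℝ) ^ m) :=
        Real.log_le_log (by exact_mod_cast hp1.pos) (by exact_mod_cast h1)
      rw [Real.log_pow] at h2
      have h3 : Real.log 2 ≤ 1 := by
        have := Real.log_two_lt_d9
        linarith
      have h4 : (m : ℝ) * Real.log 2 ≤ m := mul_le_of_le_one_right (by positivity) h3
      have h5 : (m : ℝ) ≤ ((1296 * (2 * m + 1) ^ 4 : ℕ) : ℝ) := by exact_mod_cast hx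
      linarith) le_rfl
  obtain ⟨x, hxd⟩ : ∃ x, x = 1296 * (2 * m + 1) ^ 4 := ⟨_, rfl⟩
  obtain ⟨E, hE⟩ : ∃ E, E = 5 * (2 * m) ^ 2 + 5 * (2 * m) + 9 := ⟨_, rfl⟩
  rw [← hxd, ← hE] at hB
  have h1 : Nat.log 2 w ≤ Nat.log 2 (w + a + 1) := Nat.log_mono_right (by omega)
  have h2 : x ^ E ≤ 2 ^ (x * E) := by
    rw [pow_mul]; exact Nat.pow_le_pow_left Nat.lt_two_pow_self.le _
  have h3 : 1 ≤ 2 ^ (x * E) := Nat.one_le_two_pow
  have h4 : 2 ^ t ≤ 2 ^ (16 * q + (x * E + 2)) := by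
    rw [pow_add, pow_add]
    exact ht.trans (Nat.mul_le_mul Nat.lt_two_pow_self.le (by omega))
  have h5 := (Nat.pow_le_pow_iff_right one_lt_two).1 h4
  have h6 : x * E ≤ 1296 * 81 * 39 * m ^ 6 := by
    have g1 : (2 * m + 1) ^ 4 ≤ (3 * m) ^ 4 := Nat.pow_le_pow_left (by omega) 4
    have g2 : E ≤ 39 * m ^ 2 := by rw [hE]; nlinarith
    calc x * E ≤ 1296 * (3 * m) ^ 4 * (39 * m ^ 2) :=
          Nat.mul_le_mul (by rw [hxd]; exact Nat.mul_le_mul_left _ g1) g2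
      _ = _ := by ring
  have h7 : m ^ 6 ≤ q ^ 6 * (6 ^ 6 * (2 * (1 + c))) * R := by
    have g1 : R + c ≤ (1 + c) * R := by nlinarith
    calc m ^ 6 = q ^ 6 * n ^ 6 := by rw [hm]; ring
      _ ≤ q ^ 6 * (6 ^ 6 * (2 * ((1 + c) * R))) :=
          Nat.mul_le_mul_left _ ((pow_six_le n).trans (Nat.mul_le_mul_left _
            (hn2.trans (Nat.mul_le_mul_left _ g1))))
      _ = _ := by ring
  have h8 : 16 * q + 3 ≤ (16 * q + 3) * R := Nat.le_mul_of_pos_right _ hR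
  have h9 := Nat.mul_le_mul_left (1296 * 81 * 39) h7
  calc t < (16 * q + 3) * R + 1296 * 81 * 39 * (q ^ 6 * (6 ^ 6 * (2 * (1 + c))) * R) := by omega
    _ = _ := by ring

end Pool.Agent.P.MP_ed9a6e_lc.Sp
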