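import Pool.Agent.P.MP_ed9a6e_lc.Sp4

set_option autoImplicit false

/-! Counting the members of pairs. -/

namespace Pool.Agent.P.MP_ed9a6e_lc.Sp

open Finset

theorem Pair.trans_left {I : Finset ℕ} {z z' w : ℕ} (h : Pair I z w) (h' : Pair I z' w)
    (hne : z ≠ z') : Pair I z z' :=
  ⟨h.1, h'.1, hne, fun i hi p hp => (h.2.2.2 i hi p hp).trans (h'.2.2.2 i hi p hp).symm⟩

theorem Hv.unique {c w w' a b t x y : ℕ} (ha : a < c) (hb : b < c) (h : Hv w a b t x y)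
    (h' : Hv w' a b t x y) (hw : c.factorial ^ 8 < w) (hw' : c.factorial ^ 8 < w') : w = w' := by
  obtain ⟨hab, h1, h2, h3, h4⟩ := h
  obtain ⟨-, g1, g2, g3, g4⟩ := h'
  have k1 := unique_of_heavy ha hb hab h1 h2 g1 g2 g3 g4 hw'
  have k2 := unique_of_heavy ha hb hab g1 g2 h1 h2 h3 h4 hw
  omega

open Classical in
theorem sparse (q : ℕ) (hq : 1 ≤ q) (I : Finset ℕ) (a0 : ℕ) (ha : a0 ∈ I) (ha1 : a0 + 1 ∈ I)
    (hI : 6720 * q + 1 ≤ I.card) (hI2 : 40 * q ^ 2 ≤ I.card) :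
    ∃ C : ℕ, ∀ R : ℕ, 1 ≤ R →
      ((range (R ^ q + 1)).filter fun z => ∃ w, Pair I z w).card ≤ C * R ^ 3 := by
  obtain ⟨c, hc⟩ : ∃ c, c = I.sup id + 1 := ⟨_, rfl⟩
  have hIc : ∀ i ∈ I, i < c := fun i hi => by
    have : id i ≤ I.sup id := le_sup hi
    rw [hc]; exact Nat.lt_succ_of_le this
  obtain ⟨z0, hz0⟩ := heavy_struct c q (by omega) hq
  obtain ⟨C1, hC1⟩ := scale_bound c q hq
  obtain ⟨G, hG⟩ : ∃ G, G = (c.factorial ^ (I.card ^ 2)) ^ q := ⟨_, rfl⟩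
  obtain ⟨z1, hz1⟩ : ∃ z1, z1 = z0 + c.factorial ^ 8 + 1 := ⟨_, rfl⟩
  refine ⟨z1 + I.card * ((G + 1) * (c + 2)) + I.card * (I.card * (C1 * 4)), fun R hR => ?_⟩
  set Sm := (I ×ˢ range (G * R + 1) ×ˢ range (R + c + 1)).image
    fun τ : ℕ × ℕ × ℕ => τ.2.1 * τ.2.2 ^ q - τ.1 with hSm
  have hsmall : ∀ z w, z ≤ R ^ q → Pair I z w → w < z ^ 40 → z ∈ Sm := by
    intro z w hz h hw
    obtain ⟨i, hi, a, b, hab, h1, h2⟩ := small_struct hq hI2 hIc hR hz h hw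
    rw [← hG] at h1
    refine mem_image.2 ⟨(i, a, b), ?_, by simp only; omega⟩
    simp only [mem_product, mem_range]
    exact ⟨hi, by omega, by omega⟩
  set Bg := (range (R ^ q + 1)).filter fun z => (∃ w, Pair I z w) ∧ z1 ≤ z ∧ z ∉ Sm with hBg
  have hsub : ((range (R ^ q + 1)).filter fun z => ∃ w, Pair I z w) ⊆ range z1 ∪ Sm ∪ Bg := by
    intro z hz
    rw [mem_filter] at hz
    simp only [mem_union, mem_range, hBg, mem_filter]
    by_cases h1 : z < z1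
    · exact Or.inl (Or.inl h1)
    by_cases h2 : z ∈ Sm
    · exact Or.inl (Or.inr h2)
    · exact Or.inr ⟨mem_range.1 hz.1, hz.2, not_lt.1 h1, h2⟩
  have hR3 : 1 ≤ R ^ 3 := Nat.one_le_pow _ _ hR
  have c1 : Sm.card ≤ I.card * ((G + 1) * (c + 2)) * R ^ 3 := by
    refine card_image_le.trans ?_
    rw [card_product, card_product, card_range, card_range, mul_assoc]
    refine Nat.mul_le_mul_left _ ?_
    calc (G * R + 1) * (R + c + 1) ≤ ((G + 1) * R) * ((c + 2) * R) :=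
          Nat.mul_le_mul (by nlinarith) (by nlinarith)
      _ = (G + 1) * (c + 2) * R ^ 2 := by ring
      _ ≤ _ := Nat.mul_le_mul_left _ (Nat.pow_le_pow_right hR (by norm_num))
  have hex : ∀ z ∈ Bg, ∃ τ ∈ I ×ˢ I ×ˢ range (C1 * R) ×ˢ range (R + 1) ×ˢ range (R + 1),
      ∃ w, Pair I z w ∧ c.factorial ^ 8 < w ∧ Hv w τ.1 τ.2.1 τ.2.2.1 τ.2.2.2.1 τ.2.2.2.2 := by
    intro z hz
    rw [hBg, mem_filter, mem_range] at hz
    obtain ⟨hzR, ⟨w, hw⟩, h1, h2⟩ := hz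
    have h3 : z ^ 40 ≤ w := not_lt.1 fun h => h2 (hsmall z w (by omega) hw h)
    obtain ⟨a, haI, b, hbI, t, x, y, hH, hx, hy, ht⟩ :=
      hz0 I R z w hI hIc (by omega) (by omega) hw h3
    have h4 : z ≤ z ^ 40 := le_pow_T (by norm_num)
    refine ⟨(a, b, t, x, y), ?_, w, hw, by omega, hH⟩
    simp only [mem_product, mem_range]
    exact ⟨haI, hbI, hC1 I a0 R z w t ha ha1 hIc hR (by omega) hw ht, by omega, by omega⟩
  choose! τ hτ w hw1 hw2 hw3 using hex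
  have c2 : Bg.card ≤ I.card * (I.card * (C1 * 4)) * R ^ 3 := by
    refine (card_le_card_of_injOn τ hτ fun z hz z' hz' he => ?_).trans ?_
    · have g1 := hτ z hz
      simp only [mem_product] at g1
      have g2 := hw3 z' hz'
      rw [← he] at g2
      have g3 := Hv.unique (hIc _ g1.1) (hIc _ g1.2.1) (hw3 z hz) g2 (hw2 z hz) (hw2 z' hz')
      have g4 := hw1 z hz
      have g5 := hw1 z' hz'
      rw [← g3] at g5
      by_contra hne
      have m1 := mem_filter.1 (mem_coe.1 hz)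
      have m2 := mem_filter.1 (mem_coe.1 hz')
      have r1 := mem_range.1 m1.1
      have r2 := mem_range.1 m2.1
      rcases lt_or_gt_of_ne hne with h | h
      · exact m2.2.2.2 (hsmall z' z (by omega) (g5.trans_left g4 (Ne.symm hne))
          (h.trans_le (le_pow_T (by norm_num))))
      · exact m1.2.2.2 (hsmall z z' (by omega) (g4.trans_left g5 hne)
          (h.trans_le (le_pow_T (by norm_num))))
    · simp only [card_product, card_range]
      calc I.card * (I.card * (C1 * R * ((R + 1) * (R + 1))))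
          ≤ I.card * (I.card * (C1 * R * ((2 * R) * (2 * R)))) :=
            Nat.mul_le_mul_left _ (Nat.mul_le_mul_left _
              (Nat.mul_le_mul_left _ (Nat.mul_le_mul (by omega) (by omega))))
        _ = _ := by ring
  have c3 : z1 ≤ z1 * R ^ 3 := Nat.le_mul_of_pos_right _ hR3
  have c4 := (card_le_card hsub).trans ((card_union_le _ _).trans
    (Nat.add_le_add_right (card_union_le _ _) _))
  rw [card_range] at c4
  rw [add_mul, add_mul]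
  omega

/-- passage from bounds along perfect powers to real exponents -/
theorem real_bound {S : Set ℕ} {q C : ℕ} {ε : ℝ} (hq : 1 ≤ q) (hε : 3 / (q : ℝ) ≤ ε)
    (h : ∀ R : ℕ, 1 ≤ R → {x | x ≤ R ^ q ∧ x ∈ S}.ncard ≤ C * R ^ 3) (N : ℕ) :
    (({x | x < N ∧ x ∈ S}.ncard : ℕ) : ℝ) ≤ 8 * C * (N : ℝ) ^ ε := by
  rcases Nat.eq_zero_or_pos N with rfl | hN
  · simp only [Nat.not_lt_zero, false_and, Set.ofPred_false, Set.ncard_empty, Nat.cast_zero]
    positivity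
  have hN1 : (1 : ℝ) ≤ N := by exact_mod_cast hN
  have hq0 : (0 : ℝ) < q := by exact_mod_cast hq
  obtain ⟨r, hr⟩ : ∃ r : ℝ, r = (N : ℝ) ^ ((q : ℝ)⁻¹) := ⟨_, rfl⟩
  have hr1 : 1 ≤ r := by rw [hr]; exact Real.one_le_rpow hN1 (by positivity)
  have h1 : (N : ℝ) = r ^ q := by rw [hr, Real.rpow_inv_natCast_pow (by positivity) (by omega)]
  have h2 : r ≤ ⌈r⌉₊ := Nat.le_ceil r
  have h3 : (⌈r⌉₊ : ℝ) ≤ 2 * r := by
    have := Nat.ceil_lt_add_one (by linarith : 0 ≤ r)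
    linarith
  have h4 : 1 ≤ ⌈r⌉₊ := by exact_mod_cast hr1.trans h2
  have h5 : N ≤ ⌈r⌉₊ ^ q := by
    have : (N : ℝ) ≤ (⌈r⌉₊ : ℝ) ^ q := by rw [h1]; exact pow_le_pow_left₀ (by linarith) h2 q
    exact_mod_cast this
  have h6 : {x | x < N ∧ x ∈ S}.ncard ≤ C * ⌈r⌉₊ ^ 3 :=
    le_trans (Set.ncard_le_ncard (fun x hx => And.intro (hx.1.le.trans h5) hx.2)
      ((Set.finite_Iic (⌈r⌉₊ ^ q)).subset fun x hx => hx.1)) (h _ h4)
  have h7 : r ^ 3 ≤ (N : ℝ) ^ ε := by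
    rw [hr, ← Real.rpow_natCast, ← Real.rpow_mul (by positivity)]
    refine Real.rpow_le_rpow_of_exponent_le hN1 (le_trans (le_of_eq ?_) hε)
    push_cast
    field_simp
  calc (({x | x < N ∧ x ∈ S}.ncard : ℕ) : ℝ) ≤ C * (⌈r⌉₊ : ℝ) ^ 3 := by exact_mod_cast h6
    _ ≤ C * (2 * r) ^ 3 := by gcongr
    _ = 8 * C * r ^ 3 := by ring
    _ ≤ _ := by gcongr

theorem exists_q {ε : ℝ} (hε : 0 < ε) : ∃ q : ℕ, 1 ≤ q ∧ 3 / (q : ℝ) ≤ ε := by
  obtain ⟨q, hq⟩ := exists_nat_gt (3 / ε)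
  have h1 : (0 : ℝ) < q := lt_trans (by positivity) hq
  refine ⟨q, by exact_mod_cast h1, ?_⟩
  rw [div_le_iff₀ h1]
  rw [div_lt_iff₀ hε] at hq
  linarith

end Pool.Agent.P.MP_ed9a6e_lc.Sp
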