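import Pool.Agent.P.MP_ed9a6e_lc.Sp5

set_option autoImplicit false

/-! The defining formula for squaring and the size of its exceptional set. -/

namespace Pool.Agent.P.MP_ed9a6e_lc.Sp

open Finset FirstOrder FirstOrder.Language

attribute [local instance] str

theorem TD_add {α : Type} {f : (α → ℕ) → ℕ} (hf : TD f) (n : ℕ) : TD (fun v => f v + n) := by
  induction n with
  | zero => exact hf
  | succ n ih => exact ih.succ

theorem D_forall_lt {α : Type} {P : ℕ → (α → ℕ) → Prop} (n : ℕ) (h : ∀ j, D (P j)) :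
    D (fun v => ∀ j < n, P j v) := by
  induction n with
  | zero => exact ((h 0).imp (h 0)).of_iff fun v => by simp
  | succ n ih =>
    exact (ih.and (h n)).of_iff fun v => by
      rw [Nat.forall_lt_succ_right]

/-- `w + k^2 - j^2` has the same prime divisors as `(u + k - j) (u + k + j)` for all `j ≤ k` -/
def Phi (k u w : ℕ) : Prop :=
  ∀ j < k + 1, ∀ s : ℕ, Nat.Coprime s (w + (k ^ 2 - j ^ 2)) ↔
    (Nat.Coprime s (u + (k - j)) ∧ Nat.Coprime s (u + (k + j)))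

theorem D_phi {α : Type} {f g : (α → ℕ) → ℕ} (k : ℕ) (hf : TD f) (hg : TD g) :
    D (fun v => Phi k (f v) (g v)) :=
  D_forall_lt (k + 1) fun _ => D.all (D.iff (D.cop (TD.var none) (TD_add hg.up _))
    (D.and (D.cop (TD.var none) (TD_add hf.up _)) (D.cop (TD.var none) (TD_add hf.up _))))

theorem sq_shift {k j : ℕ} (u : ℕ) (hj : j < k + 1) :
    u * (u + 2 * k) + (k ^ 2 - j ^ 2) = (u + (k - j)) * (u + (k + j)) := by
  obtain ⟨d, rfl⟩ : ∃ d, k = j + d := ⟨k - j, by omega⟩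
  have : (j + d) ^ 2 - j ^ 2 = d * (2 * j + d) := by
    rw [Nat.sub_eq_iff_eq_add (Nat.pow_le_pow_left (by omega) 2)]; ring
  rw [this, Nat.add_sub_cancel_left]
  ring

theorem phi_sq (k u : ℕ) : Phi k u (u * (u + 2 * k)) := fun j hj s => by
  rw [sq_shift u hj, Nat.coprime_mul_iff_right]

/-- the shifts used by the formula -/
def shifts (k : ℕ) : Finset ℕ := (range (k + 1)).image fun j => k ^ 2 - j ^ 2

theorem card_shifts (k : ℕ) : (shifts k).card = k + 1 := by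
  rw [shifts, card_image_of_injOn, card_range]
  intro i hi j hj h
  have h1 : i ^ 2 ≤ k ^ 2 := Nat.pow_le_pow_left (by simpa [Nat.lt_succ_iff] using hi) 2
  have h2 : j ^ 2 ≤ k ^ 2 := Nat.pow_le_pow_left (by simpa [Nat.lt_succ_iff] using hj) 2
  simp only at h
  exact Nat.pow_left_injective two_ne_zero (by simp only; omega)

theorem pair_of_phi {k u w : ℕ} (hu : 1 ≤ u) (h : Phi k u w) (hne : w ≠ u * (u + 2 * k)) :
    Pair (shifts k) (u * (u + 2 * k)) w := by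
  have key : ∀ i ∈ shifts k, ∀ p : ℕ, p.Prime → (p ∣ u * (u + 2 * k) + i ↔ p ∣ w + i) := by
    intro i hi p hp
    obtain ⟨j, hj, rfl⟩ := mem_image.1 hi
    have h1 := (h j (mem_range.1 hj) p).trans (phi_sq k u j (mem_range.1 hj) p).symm
    rw [hp.coprime_iff_not_dvd, hp.coprime_iff_not_dvd] at h1
    exact (not_iff_not.1 h1).symm
  have hpos : 1 ≤ u * (u + 2 * k) := Nat.mul_pos hu (by omega)
  refine ⟨hpos, Nat.pos_of_ne_zero ?_, hne.symm, key⟩
  rintro rfl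
  obtain ⟨p, hp1, hp⟩ := Nat.exists_infinite_primes (u * (u + 2 * k) + 1)
  have h1 := (key 0 (mem_image.2 ⟨k, by simp, by simp⟩) p hp).2 (by simp)
  have := Nat.le_of_dvd (by omega) h1
  omega

/-- inputs on which the formula gives exactly the square -/
def Good (k x : ℕ) : Prop := ∃ u, x = u + k ∧ ∀ w, Phi k u w → w = u * (u + 2 * k)

theorem definable_sq (k : ℕ) :
    (∅ : Set ℕ).Definable Lsc {v : Fin 2 → ℕ | Good k (v 0) ∧ v 1 = v 0 ^ 2} := by
  have h : D (fun v : Fin 2 → ℕ => ∃ u w, v 0 = u + k ∧ v 1 = w + k ^ 2 ∧ Phi k u w ∧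
      ∀ w', Phi k u w' → w' = w) :=
    D.ex (D.ex (D.and (D.eq (TD.var (some (some 0))) (TD_add (TD.var (some none)) k))
      (D.and (D.eq (TD.var (some (some 1))) (TD_add (TD.var none) _))
        (D.and (D_phi k (TD.var (some none)) (TD.var none))
          (D.all (D.imp (D_phi k (TD.var (some (some none))) (TD.var none))
            (D.eq (TD.var none) (TD.var (some none)))))))))
  refine h.of_iff fun v => ⟨?_, ?_⟩
  · rintro ⟨u, w, h1, h2, -, h4⟩
    have h5 := h4 _ (phi_sq k u)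
    refine ⟨⟨u, h1, fun w' hw' => (h4 w' hw').trans h5.symm⟩, ?_⟩
    rw [h2, h1, ← h5]; ring
  · rintro ⟨⟨u, h1, h2⟩, h3⟩
    exact ⟨u, _, h1, by rw [h3, h1]; ring, phi_sq k u, h2⟩

theorem bad_count (q : ℕ) (hq : 1 ≤ q) : ∃ k C : ℕ, ∀ R : ℕ, 1 ≤ R →
    {x | x ≤ R ^ q ∧ x ∈ {x | ¬ Good k x}}.ncard ≤ C * R ^ 3 := by
  classical
  obtain ⟨k, hk⟩ : ∃ k, k = 6720 * (2 * q) + 40 * (2 * q) ^ 2 := ⟨_, rfl⟩
  have hk1 : 1 ≤ k := by omega
  have hk2 : 1 ≤ k ^ 2 := Nat.one_le_pow _ _ hk1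
  obtain ⟨C, hC⟩ := sparse (2 * q) (by omega) (shifts k) (k ^ 2 - 1)
    (mem_image.2 ⟨1, mem_range.2 (by omega), by simp⟩)
    (mem_image.2 ⟨0, mem_range.2 (by omega), by simp; omega⟩)
    (by rw [card_shifts]; omega) (by rw [card_shifts]; omega)
  refine ⟨k, k + 1 + C, fun R hR => ?_⟩
  set B := (range (R ^ (2 * q) + 1)).filter fun z => ∃ w, Pair (shifts k) z w with hB
  have hsub : {x | x ≤ R ^ q ∧ x ∈ {x | ¬ Good k x}} ⊆
      ↑(range (k + 1) ∪ B.image fun z => Nat.sqrt (z + k ^ 2)) := by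
    rintro x ⟨h1, h2⟩
    rw [mem_coe, mem_union, mem_range]
    by_cases hx : x < k + 1
    · exact Or.inl hx
    obtain ⟨u, rfl⟩ : ∃ u, x = u + k := ⟨x - k, by omega⟩
    have h3 : ∃ w, Phi k u w ∧ w ≠ u * (u + 2 * k) := by
      by_contra hcon
      push Not at hcon
      exact h2 ⟨u, rfl, hcon⟩
    obtain ⟨w, hw, hne⟩ := h3
    have h4 : u * (u + 2 * k) + k ^ 2 = (u + k) ^ 2 := by ring
    have h5 : (u + k) ^ 2 ≤ R ^ (2 * q) := by
      rw [mul_comm 2 q, pow_mul]; exact Nat.pow_le_pow_left h1 2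
    refine Or.inr (mem_image.2 ⟨u * (u + 2 * k), mem_filter.2 ⟨mem_range.2 (by omega),
      w, pair_of_phi (by omega) hw hne⟩, ?_⟩)
    rw [h4, Nat.sqrt_eq']
  have h1 := Set.ncard_le_ncard hsub (finite_toSet _)
  rw [Set.ncard_coe_finset] at h1
  have h2 := (card_union_le _ _).trans' h1
  have h3 := (card_image_le (s := B) (f := fun z => Nat.sqrt (z + k ^ 2))).trans (hC R hR)
  have h4 : k + 1 ≤ (k + 1) * R ^ 3 := Nat.le_mul_of_pos_right _ (Nat.one_le_pow _ _ hR)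
  rw [card_range] at h2
  rw [add_mul]
  omega

theorem main :
    ∃ (L : FirstOrder.Language.{0, 0}) (_i : L.Structure ℕ),
      (∀ (n : ℕ) (f : L.Functions n), ∃ i : Fin n,
        ∀ v : Fin n → ℕ, Structure.funMap f v = v i + 1) ∧
      (∀ (n : ℕ) (r : L.Relations n), ∃ i j : Fin n,
        ∀ v : Fin n → ℕ, (Structure.RelMap r v ↔ Nat.Coprime (v i) (v j))) ∧
      ∀ ε : ℝ, 0 < ε → ∃ (X : Set ℕ) (C : ℝ),
        (∀ N : ℕ, (({x | x < N ∧ x ∉ X}.ncard : ℕ) : ℝ) ≤ C * (N : ℝ) ^ ε) ∧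
        (∅ : Set ℕ).Definable L {v : Fin 2 → ℕ | v 0 ∈ X ∧ v 1 = v 0 ^ 2} := by
  refine ⟨Lsc, str, fun n f => ⟨_, fun v => rfl⟩, fun n r => ⟨_, _, fun v => Iff.rfl⟩,
    fun ε hε => ?_⟩
  obtain ⟨q, hq, hqε⟩ := exists_q hε
  obtain ⟨k, C, hC⟩ := bad_count q hq
  exact ⟨{x | Good k x}, 8 * C, real_bound hq hqε hC, definable_sq k⟩

end Pool.Agent.P.MP_ed9a6e_lc.Sp
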