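import Pool.Agent.Lib.Ridout.Van

set_option autoImplicit false

/-! A zero lemma that is uniform in the number of points. -/

namespace Pool.Agent.P.MP_ed9a6e_lc.Win

open Finset Polynomial Pool.Agent.Lib.Ridout

theorem iter_comb {l : ℕ} (c : Fin l → ℚ) (φ : Fin l → ℚ[X]) (m : ℕ) :
    derivative^[m] (∑ b, c b • φ b) = ∑ b, C (c b) • derivative^[m] (φ b) := by
  rw [iterate_derivative_sum]
  refine sum_congr rfl fun b _ => ?_
  rw [iterate_derivative_smul, smul_eq_mul, smul_eq_C_mul]

theorem wr_mult {ι : Type*} (l D : ℕ) (φ : Fin l → ℚ[X]) (hφ : LinearIndependent ℚ φ)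
    (hD : ∀ b, (φ b).natDegree ≤ D) (S : Finset ι) (a : ι → ℚ) (ν : ι → ℕ)
    (ha : Set.InjOn a S)
    (h : ∀ s ∈ S, ∃ c : Fin l → ℚ, c ≠ 0 ∧ (X - C (a s)) ^ ν s ∣ ∑ b, c b • φ b) :
    ∑ s ∈ S, (ν s - l) ≤ l * D := by
  classical
  obtain ⟨L, hL, hW⟩ := gen_wronskian _ taylor_one l φ hφ
  simp only [DL_one] at hW
  set M : Matrix (Fin l) (Fin l) ℚ[X] :=
    Matrix.of fun i j => derivative^[(L i).length] (φ j) with hM
  have hdeg : M.det.natDegree ≤ l * D := by
    rw [Matrix.det_apply]
    refine natDegree_sum_le_of_forall_le _ _ fun σ _ => ?_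
    refine (natDegree_smul_le _ _).trans ((natDegree_prod_le _ _).trans ?_)
    refine (sum_le_card_nsmul _ _ D fun i _ => ?_).trans (by simp)
    exact (natDegree_iterate_derivative _ _).trans ((Nat.sub_le _ _).trans (hD _))
  have hdvd : ∀ s ∈ S, (X - C (a s)) ^ (ν s - l) ∣ M.det := by
    intro s hs
    obtain ⟨c, hc, hd⟩ := h s hs
    obtain ⟨j, hj⟩ := Function.ne_iff.1 hc
    have h1 := Matrix.det_updateCol_sum M j (fun i => C (c i))
    have h2 : (X - C (a s)) ^ (ν s - l) ∣
        (M.updateCol j (fun k => ∑ i, C (c i) • M k i)).det := by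
      rw [Matrix.det_apply]
      refine dvd_sum fun σ _ => ?_
      rw [Units.smul_def, zsmul_eq_mul]
      refine Dvd.dvd.mul_left (dvd_trans ?_ (dvd_prod_of_mem _ (mem_univ j))) _
      rw [Matrix.updateCol_self]
      have h3 := pow_sub_dvd_iterate_derivative_of_pow_dvd (L (σ j)).length hd
      rw [iter_comb] at h3
      exact (pow_dvd_pow _ (by have := hL (σ j); omega)).trans h3
    rw [h1, smul_eq_mul] at h2
    exact (IsUnit.dvd_mul_left (isUnit_C.2 (Ne.isUnit hj))).1 h2
  have h4 : ∏ s ∈ S, (X - C (a s)) ^ (ν s - l) ∣ M.det := by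
    refine Finset.prod_dvd_of_coprime (fun s hs t ht hst => ?_) hdvd
    exact (isCoprime_X_sub_C_of_isUnit_sub
      (sub_ne_zero_of_ne fun e => hst (ha hs ht e)).isUnit).pow
  have h5 := natDegree_le_of_dvd h4 hW
  rw [natDegree_prod_of_monic _ _ fun s _ => (monic_X_sub_C _).pow _] at h5
  simp only [natDegree_pow, natDegree_X_sub_C, mul_one] at h5
  exact h5.trans hdeg

theorem zero_lemma {ι : Type*} (D : ℕ) (a t : ι → ℚ) (ν : ι → ℕ) :
    ∀ (j : ℕ) (F : ℚ[X][X]) (S : Finset ι), F ≠ 0 → F.natDegree < j →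
      (∀ b, (F.coeff b).natDegree ≤ D) → Set.InjOn a S → Set.InjOn t S → (∀ s ∈ S, ν s ≤ D) →
      (∀ s ∈ S, (X - C (a s)) ^ ν s ∣ F.eval (C (t s))) → ∑ s ∈ S, (ν s - j) ≤ j * D := by
  classical
  intro j
  induction j with
  | zero => intro F S _ h; omega
  | succ j ih =>
    intro F S hF hj hD ha ht hν h
    by_cases h0 : ∃ s ∈ S, F.eval (C (t s)) = 0
    · obtain ⟨s0, hs0, h0⟩ := h0
      have h1 := mul_divByMonic_eq_iff_isRoot.2 h0
      set G := F /ₘ (X - C (C (t s0))) with hG
      have hG0 : G ≠ 0 := by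
        intro e
        rw [e, mul_zero] at h1
        exact hF h1.symm
      have h2 : G.natDegree < j := by
        have := congrArg natDegree h1
        rw [natDegree_mul (X_sub_C_ne_zero _) hG0, natDegree_X_sub_C] at this
        omega
      have h3 : ∀ b, (G.coeff b).natDegree ≤ D := by
        intro b
        rw [hG, coeff_divByMonic_X_sub_C]
        refine natDegree_sum_le_of_forall_le _ _ fun i _ => ?_
        rw [← C_pow]
        exact (natDegree_C_mul_le _ _).trans (hD i)
      have h4 := ih G (S.erase s0) hG0 h2 h3 (ha.mono (coe_subset.2 (erase_subset _ _)))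
        (ht.mono (coe_subset.2 (erase_subset _ _))) (fun s hs => hν s (mem_of_mem_erase hs))
        (fun s hs => by
          have h5 := h s (mem_of_mem_erase hs)
          rw [← h1, eval_mul, eval_sub, eval_X, eval_C, ← C_sub] at h5
          exact (IsUnit.dvd_mul_left (isUnit_C.2 (Ne.isUnit (sub_ne_zero_of_ne fun e =>
            ne_of_mem_erase hs (ht (mem_of_mem_erase hs) hs0 e))))).1 h5)
      rw [← add_sum_erase _ _ hs0]
      have h6 : ∑ s ∈ S.erase s0, (ν s - (j + 1)) ≤ ∑ s ∈ S.erase s0, (ν s - j) :=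
        sum_le_sum fun s _ => by omega
      have h7 := hν s0 hs0
      rw [add_mul, one_mul]
      omega
    · push Not at h0
      set V := Submodule.span ℚ (Set.range fun b : Fin (j + 1) => F.coeff b) with hV
      have : FiniteDimensional ℚ V := FiniteDimensional.span_of_finite ℚ (Set.finite_range _)
      have hl : Module.finrank ℚ V ≤ j + 1 := by
        have := finrank_range_le_card (R := ℚ) fun b : Fin (j + 1) => F.coeff b
        rwa [Fintype.card_fin] at this
      have hVD : V ≤ degreeLE ℚ D := by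
        rw [hV, Submodule.span_le]
        rintro _ ⟨b, rfl⟩
        exact mem_degreeLE.2 (degree_le_of_natDegree_le (hD b))
      let β := Module.finBasis ℚ V
      have h1 := wr_mult (Module.finrank ℚ V) D (fun i => (β i : ℚ[X]))
        (β.linearIndependent.map' V.subtype V.ker_subtype)
        (fun i => natDegree_le_iff_degree_le.2 (mem_degreeLE.1 (hVD (β i).2))) S a ν ha
        (fun s hs => by
          have hm : F.eval (C (t s)) ∈ V := by
            rw [eval_eq_sum_range' hj]
            refine Submodule.sum_mem _ fun b hb => ?_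
            rw [← C_pow, mul_comm, ← smul_eq_C_mul]
            exact Submodule.smul_mem _ _ (Submodule.subset_span ⟨⟨b, mem_range.1 hb⟩, rfl⟩)
          have h2 := congrArg V.subtype (β.sum_repr ⟨_, hm⟩)
          simp only [map_sum, map_smul, Submodule.subtype_apply] at h2
          refine ⟨fun i => β.repr ⟨_, hm⟩ i, fun e => h0 s hs ?_, by rw [h2]; exact h s hs⟩
          rw [← h2]
          exact sum_eq_zero fun i _ => by rw [congrFun e i]; simp)
      refine le_trans (sum_le_sum fun s _ => by omega) (h1.trans (Nat.mul_le_mul_right _ hl))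

end Pool.Agent.P.MP_ed9a6e_lc.Win
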