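import Pool.Agent.P.MP_ed9a6e_lc.Sp2
import Pool.Agent.P.MP_ed9a6e_lc.W1

set_option autoImplicit false

/-! The Thue-Siegel step with many anchor points. -/

namespace Pool.Agent.P.MP_ed9a6e_lc.Win

open Finset Polynomial Pool.Agent.P.MP_ed9a6e_lc.Sp

theorem prod_dvd_fact (V : ℕ) : ∀ (k w : ℕ) (a : ℕ → ℕ), (∀ i ≤ k, a i ∣ w + i) →
    (∀ i ≤ k, a i ∣ V) → ∏ i ∈ range (k + 1), a i ∣ k.factorial * V := by
  intro k
  induction k with
  | zero => intro w a _ h; simpa using h 0 le_rfl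
  | succ k ih =>
    intro w a h1 h2
    have g1 := ih w a (fun i hi => h1 i (by omega)) (fun i hi => h2 i (by omega))
    have g2 := ih (w + 1) (fun i => a (i + 1))
      (fun i hi => by rw [add_assoc, add_comm 1]; exact h1 _ (by omega))
      (fun i hi => h2 _ (by omega))
    have g3 : ∏ i ∈ range (k + 1 + 1), a i ∣ k.factorial * V * a (k + 1) := by
      rw [prod_range_succ]; exact mul_dvd_mul_right g1 _
    have g4 : ∏ i ∈ range (k + 1 + 1), a i ∣ k.factorial * V * a 0 := by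
      rw [prod_range_succ']; exact mul_dvd_mul_right g2 _
    have g5 := Nat.dvd_gcd g3 g4
    rw [Nat.gcd_mul_left] at g5
    have g6 : Nat.gcd (a (k + 1)) (a 0) ∣ k + 1 :=
      (Nat.dvd_add_right ((Nat.gcd_dvd_right _ _).trans (h1 0 (by omega)))).1
        ((Nat.gcd_dvd_left _ _).trans (h1 _ le_rfl))
    refine (g5.trans (mul_dvd_mul_left _ g6)).trans (dvd_of_eq ?_)
    rw [Nat.factorial_succ]; ring

theorem coeff_ne {n D T k M z w : ℕ} (a : Fin n → ℕ → ℤ) (h1 : ∃ b m, a b m ≠ 0)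
    (h2 : ∀ b m, D ≤ m → a b m = 0) (hD : 2 * T ≤ D) (hz : 1 ≤ z) (hw : 1 ≤ w)
    (h4 : ∀ i < k, (X + C (i : ℤ)) ^ (2 * T) ∣
      ∑ b : Fin n, C ((-(i : ℤ)) ^ (b : ℕ)) * pol D (a b))
    (hlt : n * D < k * (2 * T - n) + M * (T - n)) :
    ∃ s < M, ∃ μ < T, (taylor ((z + s : ℕ) : ℤ)
      (∑ b : Fin n, C (((w + s : ℕ) : ℤ) ^ (b : ℕ)) * pol D (a b))).coeff μ ≠ 0 := by
  classical
  by_contra hcon
  push Not at hcon
  have g2 : ∀ s < M, (X + C (-((z + s : ℕ) : ℤ))) ^ T ∣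
      ∑ b : Fin n, C (((w + s : ℕ) : ℤ) ^ (b : ℕ)) * pol D (a b) := by
    intro s hs
    obtain ⟨S, hS⟩ := X_pow_dvd_iff.2 (hcon s hs)
    have g2 := congrArg (taylor (-((z + s : ℕ) : ℤ))) hS
    rw [taylor_taylor, neg_add_cancel, taylor_zero, taylor_mul, taylor_X_pow] at g2
    exact ⟨_, g2⟩
  set F : ℚ[X][X] := ∑ b : Fin n, C ((pol D (a b)).map (Int.castRingHom ℚ)) * X ^ (b : ℕ) with hF
  have hev : ∀ (s t : ℤ) (m : ℕ),
      (X + C s) ^ m ∣ ∑ b : Fin n, C (t ^ (b : ℕ)) * pol D (a b) →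
      (X - C (-(s : ℚ))) ^ m ∣ F.eval (C (t : ℚ)) := by
    intro s t m h
    have h5 := Polynomial.map_dvd (Int.castRingHom ℚ) h
    convert h5 using 1
    · simp
    · rw [hF, Polynomial.map_sum, eval_finsetSum]
      refine sum_congr rfl fun b _ => ?_
      rw [eval_mul, eval_C, eval_pow, eval_X, Polynomial.map_mul, map_C, ← C_pow, mul_comm]
      simp only [eq_intCast, Int.cast_pow]
  have hco : ∀ b : ℕ, F.coeff b =
      ∑ i : Fin n, if b = (i : ℕ) then (pol D (a i)).map (Int.castRingHom ℚ) else 0 := by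
    intro b
    simp only [hF, finsetSum_coeff, coeff_C_mul_X_pow]
  have hF0 : F ≠ 0 := by
    intro h0
    obtain ⟨b, m, hb⟩ := h1
    have h5 := hco b
    rw [h0, coeff_zero, sum_eq_single b (fun i _ hi => if_neg fun e => hi (Fin.ext e.symm))
      (by simp), if_pos rfl] at h5
    have h6 := congrArg (fun P : ℚ[X] => P.coeff m) h5
    simp only [coeff_zero, coeff_map, pol_coeff (h2 b), eq_intCast] at h6
    exact hb (by exact_mod_cast h6.symm)
  have h7 := zero_lemma D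
    (Sum.elim (fun i : ℕ => -((i : ℤ) : ℚ)) (fun s : ℕ => -((-((z + s : ℕ) : ℤ) : ℤ) : ℚ)))
    (Sum.elim (fun i : ℕ => ((-(i : ℤ) : ℤ) : ℚ)) (fun s : ℕ => (((w + s : ℕ) : ℤ) : ℚ)))
    (Sum.elim (fun _ : ℕ => 2 * T) (fun _ : ℕ => T)) n F ((range k).disjSum (range M)) hF0
    ((natDegree_lt_iff_degree_lt hF0).2 (degree_sum_fin_lt _))
    (fun b => by
      rw [hco]
      refine natDegree_sum_le_of_forall_le _ _ fun i _ => ?_
      split_ifs
      · exact natDegree_map_le.trans (pol_natDegree _ _)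
      · simp)
    (by
      rintro (s | s) - (t | t) - e <;> simp only [Sum.elim_inl, Sum.elim_inr] at e <;>
        norm_cast at e <;> first | omega | (congr 1; omega))
    (by
      rintro (s | s) - (t | t) - e <;> simp only [Sum.elim_inl, Sum.elim_inr] at e <;>
        norm_cast at e <;> first | omega | (congr 1; omega))
    (by rintro (s | s) - <;> simp only [Sum.elim_inl, Sum.elim_inr] <;> omega)
    (by
      rintro (s | s) hs
      · exact hev _ _ _ (h4 s (by simpa using hs))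
      · exact hev _ _ _ (g2 s (by simpa using hs)))
  rw [sum_disjSum] at h7
  simp only [Sum.elim_inl, Sum.elim_inr, sum_const, card_range, smul_eq_mul] at h7
  omega

theorem junk_le {ρ D z : ℕ} (hρ : 1 ≤ ρ) (hD : 16 * ρ ≤ D) (hz : 64 * ρ ≤ z) :
    (16 * ρ).factorial * (4 * ρ * D * (4 * ρ * D * ((16 * ρ) ^ (4 * ρ) * (2 * (16 * ρ)) ^ D)) *
      (2 ^ (4 * ρ) * (2 * (2 * z)) ^ D)) ≤ z ^ (12 * D) := by
  have h0 : 1 ≤ z := by omega
  have h1 : (16 * ρ).factorial ≤ z ^ D :=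
    Nat.factorial_le_pow _ |>.trans
      ((Nat.pow_le_pow_left (by omega) _).trans (Nat.pow_le_pow_right h0 hD))
  have h2 : 2 ^ D ≤ z ^ D := Nat.pow_le_pow_left (by omega) _
  have h3 : 4 * ρ * D ≤ z ^ D * z ^ D :=
    Nat.mul_le_mul (le_trans (by omega) (Nat.le_self_pow (by omega) z))
      (Nat.lt_two_pow_self.le.trans h2)
  have h4 : (16 * ρ) ^ (4 * ρ) ≤ z ^ D :=
    (Nat.pow_le_pow_left (by omega) _).trans (Nat.pow_le_pow_right h0 (by omega))
  have h5 : (2 * (16 * ρ)) ^ D ≤ z ^ D := Nat.pow_le_pow_left (by omega) _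
  have h6 : 2 ^ (4 * ρ) ≤ z ^ D := (Nat.pow_le_pow_right two_pos (by omega)).trans h2
  have h7 : (2 * (2 * z)) ^ D ≤ z ^ D * z ^ D := by
    rw [← mul_pow]; exact Nat.pow_le_pow_left (by nlinarith) _
  calc _ ≤ z ^ D * (z ^ D * z ^ D * (z ^ D * z ^ D * (z ^ D * z ^ D)) *
        (z ^ D * (z ^ D * z ^ D))) := by gcongr
    _ ≤ _ := by
      simp only [← pow_add]
      exact Nat.pow_le_pow_right h0 (by omega)

theorem many_bad {ρ τ z w : ℕ} (hρ : 1 ≤ ρ) (hτ : 17 ≤ τ) (hz : 64 * ρ ≤ z)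
    (hw : z ^ (32 * τ) ≤ w) (B : Finset ℕ) (hB : B.card ≤ ρ) :
    ¬ ∀ u < 64 * ρ, u ∉ B → w + u ∣ (z + u) ^ (ρ * τ) := by
  classical
  intro hl
  have hzw : z ≤ w := (Nat.le_self_pow (by omega) _).trans hw
  have hT : 17 * ρ ≤ ρ * τ := by nlinarith
  have h8 : z ^ (12 * (16 * (ρ * τ))) ≤ w ^ (6 * ρ) := by
    refine le_trans (le_of_eq ?_) (Nat.pow_le_pow_left hw _)
    rw [← pow_mul]; congr 1; ring
  generalize ρ * τ = T at hl hT h8
  obtain ⟨a, h1, h2, h3, h4⟩ := exists_aux (16 * ρ) (4 * ρ) (16 * T) (2 * T) (range (16 * ρ))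
    (by omega) (fun i hi => mem_range.1 hi)
    (by rw [card_range]; exact Nat.mul_pos (by omega) (by omega))
    (by rw [card_range]; exact le_of_eq (by ring))
  obtain ⟨s, hs, μ, hμ, hV⟩ := coeff_ne (z := z) (w := w) (M := 48 * ρ) a h1 h2 (by omega)
    (by omega) (by omega) (fun i hi => h4 i (mem_range.2 hi)) (by
      obtain ⟨s, rfl⟩ := Nat.exists_eq_add_of_le hT
      rw [show 2 * (17 * ρ + s) - 4 * ρ = 30 * ρ + 2 * s by omega,
        show 17 * ρ + s - 4 * ρ = 13 * ρ + s by omega]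
      nlinarith)
  have hb := value_bound (D := 16 * T) a h3 (by omega : 1 ≤ z + s) (by omega : 1 ≤ w + s) μ
  have hj := junk_le (D := 16 * T) hρ (by omega) hz
  have hd := prod_dvd_fact _ (16 * ρ - 1) (w + s)
    (fun i => Nat.gcd (w + s + i) ((z + s + i) ^ T)) (fun i _ => Nat.gcd_dvd_left _ _)
    (fun i hi => gcd_dvd_value a (h4 i (mem_range.2 (by omega))) hμ.le)
  rw [Nat.sub_add_cancel (by omega)] at hd
  rw [Int.abs_eq_natAbs, Nat.cast_le] at hb
  have h5 := (Nat.le_of_dvd (Nat.mul_pos (Nat.factorial_pos _) (Int.natAbs_pos.2 hV)) hd).trans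
    (Nat.mul_le_mul (Nat.factorial_le (Nat.sub_le _ 1)) hb)
  have h6 : w ^ (15 * ρ) ≤ ∏ i ∈ range (16 * ρ), Nat.gcd (w + s + i) ((z + s + i) ^ T) := by
    have g1 : ((range (16 * ρ)).filter fun i => s + i ∈ B).card ≤ B.card :=
      card_le_card_of_injOn (fun i => s + i) (fun i hi => (mem_filter.1 hi).2)
        (fun i _ j _ e => by simpa using e)
    have g2 := card_filter_add_card_filter_not (s := range (16 * ρ)) fun i => s + i ∈ B
    rw [card_range] at g2
    refine le_trans ?_ (prod_le_prod_of_subset_of_one_le' (filter_subset (fun i => ¬ s + i ∈ B) _)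
      fun i _ _ => Nat.gcd_pos_of_pos_left _ (by omega))
    refine le_trans (Nat.pow_le_pow_right (by omega) (by omega)) (pow_card_le_prod _ _ w ?_)
    intro i hi
    obtain ⟨g3, g4⟩ := mem_filter.1 hi
    have g5 := hl (s + i) (by have := mem_range.1 g3; omega) g4
    rw [← add_assoc, ← add_assoc] at g5
    rw [Nat.gcd_eq_left g5]
    omega
  generalize (16 * ρ).factorial = G at h5 hj
  generalize 4 * ρ * (16 * T) * ((16 * ρ) ^ (4 * ρ) * (2 * (16 * ρ)) ^ (16 * T)) = H at h5 hj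
  generalize 16 * T = D at h5 hj h8
  have h9 : w ^ (15 * ρ) ≤ w ^ (10 * ρ) := by
    calc _ ≤ G * (4 * ρ * ((2 * w) ^ (4 * ρ) * (D * (H * (2 * (2 * z)) ^ D)))) := by
          refine h6.trans (h5.trans ?_)
          gcongr <;> omega
      _ = G * (4 * ρ * D * H * (2 ^ (4 * ρ) * (2 * (2 * z)) ^ D)) * w ^ (4 * ρ) := by
          rw [mul_pow 2 w]; ring
      _ ≤ w ^ (6 * ρ) * w ^ (4 * ρ) := Nat.mul_le_mul_right _ (hj.trans h8)
      _ = _ := by ring
  exact absurd h9 (not_le.2 (Nat.pow_lt_pow_right (by omega) (by omega)))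

end Pool.Agent.P.MP_ed9a6e_lc.Win
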