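import Pool.Agent.P.MP_ed9a6e_lc.W2

set_option autoImplicit false

/-! Windows of length `C log x / log log x` separate the integers. -/

namespace Pool.Agent.P.MP_ed9a6e_lc.Win

open Finset

theorem heavy {a b T : ℕ} (ha : a ≠ 0) (hb : b ≠ 0) (h : ∀ p : ℕ, p.Prime → p ∣ a → p ∣ b)
    (hn : ¬ a ∣ b ^ T) : ∃ p : ℕ, p.Prime ∧ p ^ T ∣ a := by
  by_contra hc
  push Not at hc
  refine hn ((Nat.factorization_prime_le_iff_dvd ha (pow_ne_zero _ hb)).1 fun p hp => ?_)
  have h1 := hc p hp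
  rw [hp.pow_dvd_iff_le_factorization ha] at h1
  rw [Nat.factorization_pow, Finsupp.smul_apply, smul_eq_mul]
  by_cases h0 : a.factorization p = 0
  · omega
  have h2 : 1 ≤ b.factorization p :=
    hp.factorization_pos_of_dvd hb (h p hp (Nat.dvd_of_factorization_pos h0))
  exact (not_le.1 h1).le.trans (Nat.le_mul_of_pos_right _ h2)

theorem large {ρ x y : ℕ} (hρ : 1 ≤ ρ) (hx : 64 * ρ ≤ x) (h1 : x ^ 34 < ρ ^ ρ)
    (hy : (x ^ 32) ^ 17 ≤ y) :
    ¬ ∀ i < 64 * ρ, ∀ p : ℕ, p.Prime → p ∣ y + i → p ∣ x + i := by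
  classical
  intro h
  have hz : 1 < x ^ 32 := Nat.one_lt_pow (by norm_num) (by omega)
  have hy0 : y ≠ 0 := by
    have : 0 < (x ^ 32) ^ 17 := by positivity
    omega
  have g3 : 17 ≤ Nat.log (x ^ 32) y := Nat.le_log_of_pow_le hz hy
  have g1 := Nat.pow_log_le_self (x ^ 32) hy0
  have g2 := Nat.lt_pow_succ_log_self hz y
  generalize Nat.log (x ^ 32) y = τ at g1 g2 g3
  rw [← pow_mul] at g1 g2
  have g7 : x ≤ y := (Nat.le_self_pow (by omega) _).trans g1
  have hall : ∀ u, ∃ p, u ∈ (range (64 * ρ)).filter (fun u => ¬ y + u ∣ (x + u) ^ (ρ * τ)) →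
      p < ρ ∧ 2 ≤ p ∧ p ^ (ρ * τ) ∣ y + u := by
    intro u
    by_cases hu : u ∈ (range (64 * ρ)).filter (fun u => ¬ y + u ∣ (x + u) ^ (ρ * τ))
    · obtain ⟨g4, g5⟩ := mem_filter.1 hu
      have g4 := mem_range.1 g4
      obtain ⟨p, hp, g6⟩ := heavy (by omega) (by omega) (h u g4) g5
      refine ⟨p, fun _ => ⟨?_, hp.two_le, g6⟩⟩
      have g8 : (p ^ ρ) ^ τ ≤ (x ^ 34) ^ τ := by
        rw [← pow_mul, ← pow_mul]
        calc _ ≤ y + u := Nat.le_of_dvd (by omega) g6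
          _ ≤ x * x ^ (32 * τ.succ) := by
              have : 2 * x ^ (32 * τ.succ) ≤ x * x ^ (32 * τ.succ) :=
                Nat.mul_le_mul_right _ (by omega)
              omega
          _ ≤ _ := by
              rw [← pow_succ']
              exact Nat.pow_le_pow_right (by omega) (by omega)
      exact lt_of_pow_lt_pow_left₀ ρ (by positivity)
        (((Nat.pow_le_pow_iff_left (by omega)).1 g8).trans_lt h1)
    · exact ⟨0, fun e => absurd e hu⟩
  choose p hp using hall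
  have hT : 64 * ρ ≤ 2 ^ (ρ * τ) := by
    calc 64 * ρ ≤ 2 ^ 6 * 2 ^ ρ := Nat.mul_le_mul (by norm_num) Nat.lt_two_pow_self.le
      _ ≤ _ := by rw [← pow_add]; exact Nat.pow_le_pow_right two_pos (by nlinarith)
  have key : ∀ u v, u ∈ (range (64 * ρ)).filter (fun u => ¬ y + u ∣ (x + u) ^ (ρ * τ)) →
      v ∈ (range (64 * ρ)).filter (fun u => ¬ y + u ∣ (x + u) ^ (ρ * τ)) → p u = p v →
      ¬ u < v := by
    intro u v hu hv e huv
    obtain ⟨-, a2, a3⟩ := hp u hu
    obtain ⟨-, -, b3⟩ := hp v hv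
    rw [← e] at b3
    have c1 := Nat.le_of_dvd (by omega) (Nat.dvd_sub b3 a3)
    have c2 : 2 ^ (ρ * τ) ≤ p u ^ (ρ * τ) := Nat.pow_le_pow_left a2 _
    have c3 := mem_range.1 (mem_filter.1 hv).1
    omega
  refine many_bad hρ g3 hx g1 ((range (64 * ρ)).filter (fun u => ¬ y + u ∣ (x + u) ^ (ρ * τ)))
    ?_ fun u hu hn => ?_
  · have := card_le_card_of_injOn (t := range ρ) p
      (fun u hu => mem_coe.2 (mem_range.2 (hp u hu).1))
      (fun u hu v hv e => le_antisymm (not_lt.1 (key v u hv hu e.symm)) (not_lt.1 (key u v hu hv e)))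
    rwa [card_range] at this
  · by_contra hc
    exact hn (mem_filter.2 ⟨mem_range.2 hu, hc⟩)

theorem small {m x y : ℕ} (hm : 1 ≤ m) (hx : 2 * (4 * m) ^ 2 ≤ x) (hxy : x < y)
    (h : ∀ i < 4 * m, ∀ p : ℕ, p.Prime → p ∣ y + i → p ∣ x + i) : m ^ m ≤ y := by
  classical
  have h4 : 4 * m ≤ x := by nlinarith
  have h1 := prod_dvd_fact (∏ p ∈ (y - x).primeFactors, p ^ Nat.log p (y + 4 * m)) (4 * m - 1) y
    (fun i => y + i) (fun _ _ => dvd_rfl) (fun i hi => by
      refine (Nat.dvd_iff_prime_pow_dvd_dvd _ _).2 fun p k hp hk => ?_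
      rcases Nat.eq_zero_or_pos k with rfl | hk0
      · simp
      have g1 : p ∣ y + i := (dvd_pow_self p hk0.ne').trans hk
      have g2 := Nat.dvd_sub g1 (h i (by omega) p hp g1)
      rw [show y + i - (x + i) = y - x by omega] at g2
      refine dvd_trans (pow_dvd_pow p (Nat.le_log_of_pow_le hp.one_lt
        ((Nat.le_of_dvd (by omega) hk).trans (by omega))))
        (dvd_prod_of_mem _ (Nat.mem_primeFactors.2 ⟨hp, g2, by omega⟩)))
  rw [Nat.sub_add_cancel (by omega)] at h1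
  have h2 : y ^ (4 * m) ≤ (4 * m) ^ (4 * m) * (2 * y) ^ (y - x).primeFactors.card := by
    have g1 : y ^ (4 * m) ≤ ∏ i ∈ range (4 * m), (y + i) := by
      simpa using pow_card_le_prod (range (4 * m)) (fun i => y + i) y fun i _ => by omega
    refine g1.trans ((Nat.le_of_dvd (Nat.mul_pos (Nat.factorial_pos _) (prod_pos fun p hp =>
      pow_pos (Nat.pos_of_mem_primeFactors hp) _)) h1).trans (Nat.mul_le_mul
        ((Nat.factorial_le (Nat.sub_le _ 1)).trans (Nat.factorial_le_pow _)) ?_))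
    exact prod_le_pow_card _ _ _ fun p _ => (Nat.pow_log_le_self p (by omega)).trans (by omega)
  have h3 : 2 * m < (y - x).primeFactors.card := by
    by_contra hc
    have g1 : (y * y) ^ (2 * m) ≤ (2 * (4 * m) ^ 2 * y) ^ (2 * m) := by
      calc (y * y) ^ (2 * m) = y ^ (4 * m) := by ring
        _ ≤ (4 * m) ^ (4 * m) * (2 * y) ^ (2 * m) :=
            h2.trans (Nat.mul_le_mul_left _ (Nat.pow_le_pow_right (by omega) (not_lt.1 hc)))
        _ = _ := by
            rw [show 4 * m = 2 * (2 * m) by ring, pow_mul, ← mul_pow]; congr 1; ring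
    have g2 := Nat.le_of_mul_le_mul_right ((Nat.pow_le_pow_iff_left (by omega)).1 g1) (by omega)
    omega
  have h5 : m ≤ ((y - x).primeFactors \ range m).card := by
    have := le_card_sdiff (range m) (y - x).primeFactors
    rw [card_range] at this
    omega
  calc m ^ m ≤ m ^ ((y - x).primeFactors \ range m).card := Nat.pow_le_pow_right hm h5
    _ ≤ ∏ p ∈ (y - x).primeFactors \ range m, p :=
        pow_card_le_prod _ _ _ fun p hp => by simpa using (mem_sdiff.1 hp).2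
    _ ≤ ∏ p ∈ (y - x).primeFactors, p :=
        prod_le_prod_of_subset_of_one_le' sdiff_subset fun p hp _ => Nat.pos_of_mem_primeFactors hp
    _ ≤ y - x := Nat.le_of_dvd (by omega) (Nat.prod_primeFactors_dvd _)
    _ ≤ y := Nat.sub_le _ _

theorem main_nat {ρ x y K : ℕ} (hρ : 1 ≤ ρ) (hx : 2 * (64 * ρ) ^ 2 ≤ x) (h1 : x ^ 34 < ρ ^ ρ)
    (hxy : x < y) (h : ∀ i < K, ∀ p : ℕ, p.Prime → p ∣ y + i → p ∣ x + i) : K < 64 * ρ := by
  by_contra hK
  have g1 := small (m := 16 * ρ) (by omega) (by rwa [show 4 * (16 * ρ) = 64 * ρ by ring]) hxy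
    fun i hi => h i (by omega)
  refine large (y := y) hρ (by nlinarith) h1 (le_trans ?_ g1) fun i hi => h i (by omega)
  calc (x ^ 32) ^ 17 = (x ^ 34) ^ 16 := by rw [← pow_mul, ← pow_mul]
    _ ≤ (ρ ^ ρ) ^ 16 := Nat.pow_le_pow_left h1.le _
    _ = ρ ^ (16 * ρ) := by rw [← pow_mul, mul_comm]
    _ ≤ _ := Nat.pow_le_pow_left (by omega) _

theorem exists_rho : ∃ x0 : ℕ, 3 ≤ x0 ∧ ∀ x, x0 ≤ x → ∃ ρ : ℕ, 1 ≤ ρ ∧ 2 * (64 * ρ) ^ 2 ≤ x ∧
    x ^ 34 < ρ ^ ρ ∧ (ρ : ℝ) ≤ 70 * (Real.log x / Real.log (Real.log x)) := by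
  have h := (Real.isLittleO_pow_log_id_atTop (n := 2)).bound (c := 1 / (2 * (64 * 70) ^ 2))
    (by norm_num)
  have h' := Real.tendsto_log_atTop.eventually_ge_atTop 3
  obtain ⟨r, hr⟩ := Filter.eventually_atTop.1 (h.and h')
  refine ⟨⌈r⌉₊ + 3, by omega, fun x hx => ?_⟩
  have hx3 : (3 : ℝ) ≤ x := by exact_mod_cast (by omega : 3 ≤ x)
  obtain ⟨h1, h2⟩ := hr x ((Nat.le_ceil r).trans (by exact_mod_cast (by omega : ⌈r⌉₊ ≤ x)))
  rw [Real.norm_of_nonneg (by positivity), id, Real.norm_of_nonneg (by linarith)] at h1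
  have hex : Real.exp (Real.log x) = x := Real.exp_log (by linarith)
  generalize Real.log x = t at h1 h2 hex ⊢
  have h3 : 1 ≤ Real.log t := by
    rw [Real.le_log_iff_exp_le (by linarith)]
    linarith [Real.exp_one_lt_d9]
  have h4 : Real.log t ≤ 2 * √t := by
    have := Real.log_le_sub_one_of_pos (Real.sqrt_pos.2 (by linarith : 0 < t))
    rw [Real.log_sqrt (by linarith)] at this
    linarith
  have h5 : 0 < √t := Real.sqrt_pos.2 (by linarith)
  have h6 : √t * √t = t := Real.mul_self_sqrt (by linarith)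
  obtain ⟨q, hq⟩ : ∃ q, q = t / Real.log t := ⟨_, rfl⟩
  have h7 : q * Real.log t = t := by rw [hq]; field_simp
  have h8 : 1 ≤ q := by
    rw [hq, le_div_iff₀ (by linarith)]
    linarith [Real.log_le_sub_one_of_pos (by linarith : 0 < t)]
  have h9 : √t ≤ 2 * q := by nlinarith
  have h10 : q ≤ t := by nlinarith
  rw [← hq]
  have g1 := Nat.le_ceil (69 * q)
  have g2 := (Nat.ceil_lt_add_one (by linarith : 0 ≤ 69 * q)).le
  generalize ⌈69 * q⌉₊ = ρ at g1 g2
  have g3 : (ρ : ℝ) ≤ 70 * q := by linarith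
  refine ⟨ρ, by exact_mod_cast (by linarith : (1 : ℝ) ≤ ρ), ?_, ?_, g3⟩
  · have : 2 * (64 * (ρ : ℝ)) ^ 2 ≤ x := by
      have : (ρ : ℝ) ^ 2 ≤ (70 * t) ^ 2 := pow_le_pow_left₀ (by positivity) (by linarith) 2
      nlinarith
    exact_mod_cast this
  · have g4 : Real.log t / 2 ≤ Real.log ρ := by
      rw [← Real.log_sqrt (by linarith)]
      exact Real.log_le_log h5 (by linarith)
    have g5 : (x : ℝ) ^ 34 < (ρ : ℝ) ^ ρ := by
      rw [← Real.log_lt_log_iff (by positivity) (pow_pos (by linarith) _), Real.log_pow,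
        Real.log_pow, ← hex, Real.log_exp]
      have : 69 * q * (Real.log t / 2) ≤ ρ * Real.log ρ :=
        mul_le_mul g1 g4 (by linarith) (by linarith)
      push_cast
      nlinarith
    exact_mod_cast g5

theorem main : ∃ C : ℝ, ∀ x y K : ℕ, 3 ≤ x → x < y →
    (∀ i < K, ∀ p : ℕ, p.Prime → p ∣ y + i → p ∣ x + i) →
    (K : ℝ) ≤ C * (Real.log x / Real.log (Real.log x)) := by
  obtain ⟨x0, hx0, H⟩ := exists_rho
  obtain ⟨ρ0, a1, a2, a3, -⟩ := H x0 le_rfl
  refine ⟨64 * 70 + (x0 + 64 * ρ0 : ℕ), fun x y K hx hxy h => ?_⟩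
  have hx3 : (3 : ℝ) ≤ x := by exact_mod_cast hx
  have h3 : 1 < Real.log x := by
    rw [Real.lt_log_iff_exp_lt (by linarith)]
    linarith [Real.exp_one_lt_d9]
  have h4 : 1 ≤ Real.log x / Real.log (Real.log x) := by
    rw [le_div_iff₀ (Real.log_pos h3)]
    linarith [Real.log_le_sub_one_of_pos (by linarith : 0 < Real.log x)]
  have h5 : (0 : ℝ) ≤ (x0 + 64 * ρ0 : ℕ) := Nat.cast_nonneg _
  rcases le_total x0 x with hc | hc
  · obtain ⟨ρ, b1, b2, b3, b4⟩ := H x hc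
    have : (K : ℝ) ≤ 64 * ρ := by exact_mod_cast (main_nat b1 b2 b3 hxy h).le
    nlinarith
  · have g1 := main_nat (y := y + (x0 - x)) (K := K - (x0 - x)) a1 a2 a3 (by omega)
      (fun i hi p hp hd => by
        have := h (x0 - x + i) (by omega) p hp (by rwa [← add_assoc])
        rwa [show x + (x0 - x + i) = x0 + i by omega] at this)
    have : (K : ℝ) ≤ (x0 + 64 * ρ0 : ℕ) := by exact_mod_cast (by omega : K ≤ x0 + 64 * ρ0)
    nlinarith

end Pool.Agent.P.MP_ed9a6e_lc.Win
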